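import Pool.Agent.R784.PT.Defs

/-! Path expectations for an averaging operator. -/

namespace Pool.Agent.R784.PT

variable {V : Type}

/-- an averaging operator with finite supports -/
def IsAvg (A : (V → ℝ) → V → ℝ) : Prop := ∀ x, ∃ (S : Finset V) (q : V → ℝ), (∀ y ∈ S, 0 ≤ q y) ∧
  ∑ y ∈ S, q y = 1 ∧ ∀ F, A F x = ∑ y ∈ S, q y * F y

/-- path expectations -/
def EW (A : (V → ℝ) → V → ℝ) : ℕ → V → (List V → ℝ) → ℝ
  | 0, _, F => F []
  | n + 1, x, F => A (fun y => EW A n y (fun l => F (y :: l))) x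

variable {A : (V → ℝ) → V → ℝ}

theorem EW_succ (n : ℕ) (x : V) (F : List V → ℝ) :
    EW A (n + 1) x F = A (fun y => EW A n y (fun l => F (y :: l))) x := rfl

theorem A_mul (hA : IsAvg A) (c : ℝ) (F : V → ℝ) (x : V) :
    A (fun y => F y * c) x = A F x * c := by
  obtain ⟨S, q, -, -, h⟩ := hA x
  rw [h, h, Finset.sum_mul]
  exact Finset.sum_congr rfl fun y _ => by ring

theorem A_const (hA : IsAvg A) (c : ℝ) (x : V) : A (fun _ => c) x = c := by
  obtain ⟨S, q, -, h1, h⟩ := hA x
  rw [h, ← Finset.sum_mul, h1, one_mul]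

theorem EW_repr (hA : IsAvg A) (n : ℕ) : ∀ x, ∃ (ι : Type) (_ : Fintype ι) (p : ι → ℝ)
    (path : ι → List V), (∀ i, 0 ≤ p i) ∧ ∑ i, p i = 1 ∧ (∀ i, (path i).length = n) ∧
      ∀ F, EW A n x F = ∑ i, p i * F (path i) := by
  induction n with
  | zero =>
    intro x
    exact ⟨Unit, inferInstance, fun _ => 1, fun _ => [], fun _ => zero_le_one, by simp,
      fun _ => rfl, fun F => by simp [EW]⟩
  | succ n ih =>
    intro x
    obtain ⟨S, q, hq, hq1, hS⟩ := hA x
    choose ι hι p path hp hp1 hlen hrep using ih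
    refine ⟨Σ y : S, ι y, inferInstance, fun z => q z.1 * p z.1 z.2, fun z => z.1 :: path z.1 z.2,
      fun z => mul_nonneg (hq _ z.1.2) (hp _ _), ?_, ?_, ?_⟩
    · rw [Fintype.sum_sigma]
      simp only [← Finset.mul_sum, hp1, mul_one]
      rw [Finset.sum_coe_sort S q, hq1]
    · intro z
      simp [hlen]
    · intro F
      rw [EW_succ, hS, Fintype.sum_sigma, ← Finset.sum_coe_sort S]
      refine Finset.sum_congr rfl fun y _ => ?_
      rw [hrep, Finset.mul_sum]
      exact Finset.sum_congr rfl fun i _ => by ring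

theorem EW_congr (hA : IsAvg A) {n : ℕ} {x : V} {F G : List V → ℝ}
    (h : ∀ s : List V, s.length = n → F s = G s) : EW A n x F = EW A n x G := by
  obtain ⟨ι, _, p, path, -, -, hlen, hrep⟩ := EW_repr hA n x
  rw [hrep, hrep]
  exact Finset.sum_congr rfl fun i _ => by rw [h _ (hlen i)]

theorem EW_mono (hA : IsAvg A) {n : ℕ} {x : V} {F G : List V → ℝ}
    (h : ∀ s : List V, s.length = n → F s ≤ G s) : EW A n x F ≤ EW A n x G := by
  obtain ⟨ι, _, p, path, hp, -, hlen, hrep⟩ := EW_repr hA n x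
  rw [hrep, hrep]
  exact Finset.sum_le_sum fun i _ => mul_le_mul_of_nonneg_left (h _ (hlen i)) (hp i)

theorem EW_const (hA : IsAvg A) (n : ℕ) (x : V) (c : ℝ) : EW A n x (fun _ => c) = c := by
  obtain ⟨ι, _, p, path, -, hp1, -, hrep⟩ := EW_repr hA n x
  rw [hrep, ← Finset.sum_mul, hp1, one_mul]

theorem EW_mul (hA : IsAvg A) (n : ℕ) (x : V) (c : ℝ) (F : List V → ℝ) :
    EW A n x (fun s => F s * c) = EW A n x F * c := by
  obtain ⟨ι, _, p, path, -, -, -, hrep⟩ := EW_repr hA n x
  rw [hrep, hrep, Finset.sum_mul]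
  exact Finset.sum_congr rfl fun y _ => by ring

theorem EW_drop (hA : IsAvg A) (n : ℕ) : ∀ (x : V) (F : List V → ℝ),
    (∀ l : List V, l.length = n → ∀ y, F (l ++ [y]) = F l) → EW A (n + 1) x F = EW A n x F := by
  induction n with
  | zero =>
    intro x F h
    rw [EW_succ]
    have : (fun y => EW A 0 y (fun l => F (y :: l))) = fun _ => F [] := by
      funext y
      exact h [] rfl y
    rw [this, A_const hA]
    rfl
  | succ n ih =>
    intro x F h
    rw [EW_succ, EW_succ]
    congr 1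
    funext y
    apply ih
    intro l hl z
    exact h (y :: l) (by simp [hl]) z

variable [DecidableEq V]

/-- indicator -/
def ind (r : V) : V → ℝ := fun x => if x = r then 1 else 0

theorem EW_one (hA : IsAvg A) (r : V) (a : ℕ) : ∀ (n : ℕ) (x : V), a < n →
    EW A n x (fun s => ind r (s.getD a r)) = A^[a + 1] (ind r) x := by
  induction a with
  | zero =>
    intro n x hn
    obtain ⟨n, rfl⟩ : ∃ k, n = k + 1 := ⟨n - 1, by omega⟩
    rw [EW_succ]
    have : (fun y => EW A n y (fun l => ind r ((y :: l).getD 0 r))) = ind r := by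
      funext y
      exact EW_const hA n y (ind r y)
    rw [this]
    rfl
  | succ a ih =>
    intro n x hn
    obtain ⟨n, rfl⟩ : ∃ k, n = k + 1 := ⟨n - 1, by omega⟩
    rw [EW_succ, Function.iterate_succ_apply']
    congr 1
    funext y
    exact ih n y (by omega)

theorem EW_two (hA : IsAvg A) (r : V) (a : ℕ) : ∀ (b n : ℕ) (x : V), a < b → b < n →
    EW A n x (fun s => ind r (s.getD a r) * ind r (s.getD b r)) =
      A^[a + 1] (ind r) x * A^[b - a] (ind r) r := by
  induction a with
  | zero =>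
    intro b n x hab hn
    obtain ⟨n, rfl⟩ : ∃ k, n = k + 1 := ⟨n - 1, by omega⟩
    obtain ⟨b, rfl⟩ : ∃ k, b = k + 1 := ⟨b - 1, by omega⟩
    rw [EW_succ]
    have : (fun y => EW A n y (fun l => ind r ((y :: l).getD 0 r) *
        ind r ((y :: l).getD (b + 1) r))) = fun y => ind r y * A^[b + 1] (ind r) r := by
      funext y
      have h1 : (fun l : List V => ind r ((y :: l).getD 0 r) * ind r ((y :: l).getD (b + 1) r)) =
          fun l => ind r (l.getD b r) * ind r y := by
        funext l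
        rw [mul_comm]
        rfl
      rw [h1, EW_mul hA, EW_one hA r b n y (by omega)]
      by_cases hy : y = r
      · rw [hy]; ring
      · simp [ind, hy]
    rw [this, A_mul hA]
    rfl
  | succ a ih =>
    intro b n x hab hn
    obtain ⟨n, rfl⟩ : ∃ k, n = k + 1 := ⟨n - 1, by omega⟩
    obtain ⟨b, rfl⟩ : ∃ k, b = k + 1 := ⟨b - 1, by omega⟩
    rw [EW_succ, Function.iterate_succ_apply', ← A_mul hA]
    congr 1
    funext y
    have := ih b n y (by omega) (by omega)
    rw [show b + 1 - (a + 1) = b - a by omega]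
    exact this

end Pool.Agent.R784.PT
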