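import Pool.Agent.R784.PT.A1

/-! The disorder: product formulas. -/

open MeasureTheory ProbabilityTheory Filter Topology

namespace Pool.Agent.R784.PT

variable {V : Type}

/-- one layer of the disorder -/
noncomputable def lay (V : Type) (ν : Measure ℝ) : Measure (V → ℝ) := Measure.infinitePi fun _ => ν

/-- the disorder -/
noncomputable def env (V : Type) (ν : Measure ℝ) : Measure (ℕ → V → ℝ) :=
  Measure.infinitePi fun _ => lay V ν

instance (ν : Measure ℝ) [IsProbabilityMeasure ν] : IsProbabilityMeasure (lay V ν) := by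
  unfold lay; infer_instance

instance (ν : Measure ℝ) [IsProbabilityMeasure ν] : IsProbabilityMeasure (env V ν) := by
  unfold env; infer_instance

section basic

variable (ν : Measure ℝ) [IsProbabilityMeasure ν]

theorem prod_layers (n : ℕ) (f : ℕ → (V → ℝ) → ℝ) (hm : ∀ i, Measurable (f i))
    (hf : ∀ i, Integrable (f i) (lay V ν)) :
    Integrable (fun ω => ∏ i ∈ Finset.range n, f i (ω i)) (env V ν) ∧
      ∫ ω, ∏ i ∈ Finset.range n, f i (ω i) ∂(env V ν) =
        ∏ i ∈ Finset.range n, ∫ e, f i e ∂(lay V ν) := by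
  have hX : iIndepFun (fun (i : Fin n) (ω : ℕ → V → ℝ) => ω i) (env V ν) := by
    have h := iIndepFun_infinitePi (P := fun _ : ℕ => lay V ν) (X := fun _ e => e)
      (fun _ => measurable_id)
    exact h.precomp Fin.val_injective
  have hmeas : ∀ i : Fin n, Measurable (fun ω : ℕ → V → ℝ => ω i) := fun i => measurable_pi_apply _
  have hmap : (env V ν).map (fun ω (i : Fin n) => ω i) = Measure.pi fun _ : Fin n => lay V ν := by
    rw [hX.map_fun_eq_pi_map (fun i => (hmeas i).aemeasurable)]
    congr 1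
    funext i
    exact Measure.infinitePi_map_eval (fun _ : ℕ => lay V ν) (i : ℕ)
  have hall : Measurable (fun (ω : ℕ → V → ℝ) (i : Fin n) => ω i) :=
    measurable_pi_iff.2 hmeas
  have hprod : ∀ ω : ℕ → V → ℝ, ∏ i ∈ Finset.range n, f i (ω i) =
      (fun e : Fin n → V → ℝ => ∏ i : Fin n, f i (e i)) (fun i => ω i) := by
    intro ω
    exact Finset.prod_range _
  have hint : Integrable (fun e : Fin n → V → ℝ => ∏ i : Fin n, f i (e i))
      (Measure.pi fun _ : Fin n => lay V ν) := Integrable.fintype_prod fun i => hf i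
  rw [← hmap] at hint
  constructor
  · have := hint.comp_measurable hall
    refine this.congr (Filter.Eventually.of_forall fun ω => ?_)
    exact (hprod ω).symm
  · calc ∫ ω, ∏ i ∈ Finset.range n, f i (ω i) ∂(env V ν)
        = ∫ ω, (fun e : Fin n → V → ℝ => ∏ i : Fin n, f i (e i)) (fun i => ω i) ∂(env V ν) :=
          integral_congr_ae (Filter.Eventually.of_forall hprod)
      _ = ∫ e, ∏ i : Fin n, f i (e i) ∂((env V ν).map (fun ω (i : Fin n) => ω i)) := by
          rw [integral_map hall.aemeasurable hint.aestronglyMeasurable]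
      _ = ∏ i : Fin n, ∫ e, f i e ∂(lay V ν) := by
          rw [hmap]
          exact integral_fintype_prod_eq_prod (fun (i : Fin n) (e : V → ℝ) => f i e)
      _ = ∏ i ∈ Finset.range n, ∫ e, f i e ∂(lay V ν) :=
          (Finset.prod_range (fun i => ∫ e, f i e ∂(lay V ν))).symm

theorem lay_one (y : V) (f : ℝ → ℝ) (hf : Integrable f ν) :
    Integrable (fun e : V → ℝ => f (e y)) (lay V ν) ∧ ∫ e, f (e y) ∂(lay V ν) = ∫ t, f t ∂ν := by
  have hmap : (lay V ν).map (fun e => e y) = ν := Measure.infinitePi_map_eval (fun _ : V => ν) y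
  have hmeas : Measurable (fun e : V → ℝ => e y) := measurable_pi_apply _
  rw [← hmap] at hf
  constructor
  · exact hf.comp_measurable hmeas
  · rw [← integral_map hmeas.aemeasurable hf.aestronglyMeasurable, hmap]

theorem lay_two {y z : V} (hyz : y ≠ z) (f g : ℝ → ℝ) (hf : Integrable f ν)
    (hg : Integrable g ν) : Integrable (fun e : V → ℝ => f (e y) * g (e z)) (lay V ν) ∧
      ∫ e, f (e y) * g (e z) ∂(lay V ν) = (∫ t, f t ∂ν) * ∫ t, g t ∂ν := by
  have hmap : (lay V ν).map (fun e => (e y, e z)) = ν.prod ν :=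
    Measure.infinitePi_map_eval_prod (P := fun _ : V => ν) hyz
  have hmeas : Measurable (fun e : V → ℝ => (e y, e z)) :=
    (measurable_pi_apply _).prodMk (measurable_pi_apply _)
  have hint : Integrable (fun q : ℝ × ℝ => f q.1 * g q.2) (ν.prod ν) := hf.mul_prod hg
  have hval : ∫ q, f q.1 * g q.2 ∂(ν.prod ν) = (∫ t, f t ∂ν) * ∫ t, g t ∂ν := integral_prod_mul f g
  rw [← hmap] at hint hval
  constructor
  · exact hint.comp_measurable hmeas
  · rw [← hval, integral_map hmeas.aemeasurable hint.aestronglyMeasurable]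

end basic

/-! ### one-site quantities -/

/-- centred disorder -/
noncomputable def xi (ν : Measure ℝ) (t : ℝ) : ℝ := t - ∫ x, x ∂ν

/-- tilting weight -/
noncomputable def zeta (ν : Measure ℝ) (β t : ℝ) : ℝ := Real.exp (β * t - logMgf ν β)

section site

variable {ν : Measure ℝ} [IsProbabilityMeasure ν] (hν : ∀ b : ℝ, Integrable (fun t => Real.exp (b * t)) ν)

include hν

omit [IsProbabilityMeasure ν] in
theorem int_pow_exp (b : ℝ) (n : ℕ) : Integrable (fun t => t ^ n * Real.exp (b * t)) ν := by
  have h : integrableExpSet (fun t : ℝ => t) ν = Set.univ := by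
    ext b; simp only [integrableExpSet, Set.mem_univ, iff_true]; exact hν b
  have h2 : b ∈ interior (integrableExpSet (fun t : ℝ => t) ν) := by
    rw [h, interior_univ]; exact Set.mem_univ _
  exact integrable_pow_mul_exp_of_mem_interior_integrableExpSet h2 n

theorem int_id : Integrable (fun t : ℝ => t) ν := by
  have := int_pow_exp hν 0 1
  simpa using this

theorem int_sq : Integrable (fun t : ℝ => t ^ 2) ν := by
  have := int_pow_exp hν 0 2
  simpa using this

theorem mgf_pos (β : ℝ) : 0 < ∫ t, Real.exp (β * t) ∂ν := integral_exp_pos (hν β)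

theorem zeta_eq (β t : ℝ) : zeta ν β t = Real.exp (β * t) * (∫ t, Real.exp (β * t) ∂ν)⁻¹ := by
  rw [zeta, sub_eq_add_neg, Real.exp_add, logMgf, Real.exp_neg, Real.exp_log (mgf_pos hν β)]

omit hν [IsProbabilityMeasure ν] in
theorem zeta_pos (β t : ℝ) : 0 < zeta ν β t := Real.exp_pos _

theorem int_zeta (β : ℝ) : Integrable (zeta ν β) ν := by
  have : zeta ν β = fun t => Real.exp (β * t) * (∫ t, Real.exp (β * t) ∂ν)⁻¹ :=
    funext fun t => zeta_eq hν β t
  rw [this]
  exact (hν β).mul_const _

theorem integral_zeta (β : ℝ) : ∫ t, zeta ν β t ∂ν = 1 := by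
  simp only [zeta_eq hν β]
  rw [integral_mul_const]
  exact mul_inv_cancel₀ (mgf_pos hν β).ne'

theorem int_xi : Integrable (xi ν) ν := (int_id hν).sub (integrable_const _)

theorem integral_xi : ∫ t, xi ν t ∂ν = 0 := by
  unfold xi
  rw [integral_sub (int_id hν) (integrable_const _)]
  simp

theorem int_xi2 : Integrable (fun t => xi ν t ^ 2) ν := by
  have h : (fun t => xi ν t ^ 2) = fun t => (t ^ 2 - (2 * ∫ x, x ∂ν) * t) + (∫ x, x ∂ν) ^ 2 := by
    funext t; unfold xi; ring
  rw [h]
  exact ((int_sq hν).sub ((int_id hν).const_mul _)).add (integrable_const _)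

theorem int_zeta_xi (β : ℝ) : Integrable (fun t => zeta ν β t * xi ν t) ν := by
  have h : (fun t => zeta ν β t * xi ν t) = fun t =>
      (t ^ 1 * Real.exp (β * t) - (∫ x, x ∂ν) * Real.exp (β * t)) *
        (∫ t, Real.exp (β * t) ∂ν)⁻¹ := by
    funext t; rw [zeta_eq hν]; unfold xi; ring
  rw [h]
  exact ((int_pow_exp hν β 1).sub ((hν β).const_mul _)).mul_const _

theorem int_zeta_xi2 (β : ℝ) : Integrable (fun t => zeta ν β t * xi ν t ^ 2) ν := by
  have h : (fun t => zeta ν β t * xi ν t ^ 2) = fun t =>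
      (t ^ 2 * Real.exp (β * t) - (2 * ∫ x, x ∂ν) * (t ^ 1 * Real.exp (β * t)) +
        (∫ x, x ∂ν) ^ 2 * Real.exp (β * t)) * (∫ t, Real.exp (β * t) ∂ν)⁻¹ := by
    funext t; rw [zeta_eq hν]; unfold xi; ring
  rw [h]
  exact (((int_pow_exp hν β 2).sub ((int_pow_exp hν β 1).const_mul _)).add
    ((hν β).const_mul _)).mul_const _

/-- `Δ = E[ζ ξ]` is positive if the disorder is not constant. -/
theorem delta_pos (hc : ∀ c : ℝ, ν ≠ Measure.dirac c) {β : ℝ} (hβ : 0 < β) :
    0 < ∫ t, zeta ν β t * xi ν t ∂ν := by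
  set m0 := ∫ x, x ∂ν with hm0
  have e1 : ∫ t, zeta ν β t * xi ν t ∂ν = ∫ t, (zeta ν β t - zeta ν β m0) * xi ν t ∂ν := by
    have : ∀ t, (zeta ν β t - zeta ν β m0) * xi ν t =
        zeta ν β t * xi ν t - zeta ν β m0 * xi ν t := fun t => by ring
    simp only [this]
    rw [integral_sub (int_zeta_xi hν β) ((int_xi hν).const_mul _), integral_const_mul,
      integral_xi hν]
    ring
  have hnn : ∀ t, 0 ≤ (zeta ν β t - zeta ν β m0) * xi ν t := by
    intro t
    rcases le_total m0 t with h | h
    · apply mul_nonneg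
      · unfold zeta
        rw [sub_nonneg]
        apply Real.exp_le_exp.2
        nlinarith
      · exact sub_nonneg.2 h
    · apply mul_nonneg_of_nonpos_of_nonpos
      · unfold zeta
        rw [sub_nonpos]
        apply Real.exp_le_exp.2
        nlinarith
      · exact sub_nonpos.2 h
  have hint : Integrable (fun t => (zeta ν β t - zeta ν β m0) * xi ν t) ν := by
    have : (fun t => (zeta ν β t - zeta ν β m0) * xi ν t) = fun t =>
        zeta ν β t * xi ν t - zeta ν β m0 * xi ν t := by funext t; ring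
    rw [this]
    exact (int_zeta_xi hν β).sub ((int_xi hν).const_mul _)
  rw [e1]
  refine lt_of_le_of_ne (integral_nonneg hnn) fun h0 => ?_
  have h1 := (integral_eq_zero_iff_of_nonneg (fun t => hnn t) hint).1 h0.symm
  have h2 : ∀ᵐ t ∂ν, t = m0 := by
    filter_upwards [h1] with t ht
    by_contra hne
    have ht' : (zeta ν β t - zeta ν β m0) * xi ν t = 0 := ht
    rcases mul_eq_zero.1 ht' with h3 | h3
    · unfold zeta at h3
      have h4 := Real.exp_injective (sub_eq_zero.1 h3)
      apply hne
      have h5 : β * t = β * m0 := by linarith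
      exact mul_left_cancel₀ hβ.ne' h5
    · exact hne (sub_eq_zero.1 h3)
  apply hc m0
  have h3 : ν.map (fun t => t) = ν.map (fun _ => m0) := Measure.map_congr h2
  rw [Measure.map_const] at h3
  rw [show (fun t : ℝ => t) = id from rfl, Measure.map_id] at h3
  rw [h3]
  simp

end site

end Pool.Agent.R784.PT
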