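import Pool.Agent.R784.PT.A2

/-! Expectations of the partition function against linear statistics of the disorder at a
vertex. -/

open MeasureTheory ProbabilityTheory Filter Topology

namespace Pool.Agent.R784.PT

variable {V : Type} [DecidableEq V]

/-- the weight of a path -/
noncomputable def wt (ν : Measure ℝ) (β : ℝ) (r : V) (n : ℕ) (s : List V) (ω : ℕ → V → ℝ) : ℝ :=
  Real.exp (∑ i ∈ Finset.range n, (β * ω i (s.getD i r) - logMgf ν β))

omit [DecidableEq V] in
theorem wt_eq (ν : Measure ℝ) (β : ℝ) (r : V) (n : ℕ) (s : List V) (ω : ℕ → V → ℝ) :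
    wt ν β r n s ω = ∏ i ∈ Finset.range n, zeta ν β (ω i (s.getD i r)) := Real.exp_sum _ _

section

variable {ν : Measure ℝ} [IsProbabilityMeasure ν] (hν : ∀ b : ℝ, Integrable (fun t => Real.exp (b * t)) ν)

include hν

theorem site (β : ℝ) (r y : V) (φ : ℝ → ℝ) (h1 : Integrable φ ν)
    (h2 : Integrable (fun t => zeta ν β t * φ t) ν) :
    Integrable (fun e : V → ℝ => zeta ν β (e y) * φ (e r)) (lay V ν) ∧
      ∫ e, zeta ν β (e y) * φ (e r) ∂(lay V ν) =
        if y = r then ∫ t, zeta ν β t * φ t ∂ν else ∫ t, φ t ∂ν := by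
  by_cases hy : y = r
  · subst hy
    rw [if_pos rfl]
    exact lay_one ν y _ h2
  · rw [if_neg hy]
    have := lay_two ν hy (zeta ν β) φ (int_zeta hν β) h1
    rw [integral_zeta hν, one_mul] at this
    exact this

/-- the general product formula -/
theorem wt_prod (β : ℝ) (r : V) (n : ℕ) (s : List V) (φ : ℕ → ℝ → ℝ) (hm : ∀ i, Measurable (φ i))
    (h1 : ∀ i, Integrable (φ i) ν) (h2 : ∀ i, Integrable (fun t => zeta ν β t * φ i t) ν) :
    Integrable (fun ω => wt ν β r n s ω * ∏ i ∈ Finset.range n, φ i (ω i r)) (env V ν) ∧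
      ∫ ω, wt ν β r n s ω * ∏ i ∈ Finset.range n, φ i (ω i r) ∂(env V ν) =
        ∏ i ∈ Finset.range n, if s.getD i r = r then ∫ t, zeta ν β t * φ i t ∂ν
          else ∫ t, φ i t ∂ν := by
  have h := prod_layers ν n (fun i (e : V → ℝ) => zeta ν β (e (s.getD i r)) * φ i (e r)) ?_ ?_
  · have e1 : ∀ ω : ℕ → V → ℝ, wt ν β r n s ω * ∏ i ∈ Finset.range n, φ i (ω i r) =
        ∏ i ∈ Finset.range n, (zeta ν β (ω i (s.getD i r)) * φ i (ω i r)) := by
      intro ω
      rw [wt_eq, ← Finset.prod_mul_distrib]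
    simp only [e1]
    refine ⟨h.1, h.2.trans ?_⟩
    exact Finset.prod_congr rfl fun i _ => (site hν β r _ (φ i) (h1 i) (h2 i)).2
  · intro i
    have : Measurable (zeta ν β) := by unfold zeta; fun_prop
    exact (this.comp (measurable_pi_apply _)).mul ((hm i).comp (measurable_pi_apply _))
  · intro i
    exact (site hν β r _ (φ i) (h1 i) (h2 i)).1

theorem wt_one (β : ℝ) (r : V) (n : ℕ) (s : List V) :
    Integrable (wt ν β r n s) (env V ν) ∧ ∫ ω, wt ν β r n s ω ∂(env V ν) = 1 := by
  have h := wt_prod hν β r n s (fun _ _ => 1) (fun _ => measurable_const)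
    (fun _ => integrable_const _) (fun _ => by simpa using int_zeta hν β)
  simpa [integral_zeta hν] using h

/-- two marked layers -/
theorem wt_two (β : ℝ) (r : V) (n : ℕ) (s : List V) {a b : ℕ} (ha : a < n) (hb : b < n)
    (hab : a ≠ b) : Integrable (fun ω => wt ν β r n s ω * (xi ν (ω a r) * xi ν (ω b r)))
      (env V ν) ∧
    ∫ ω, wt ν β r n s ω * (xi ν (ω a r) * xi ν (ω b r)) ∂(env V ν) =
      (∫ t, zeta ν β t * xi ν t ∂ν) ^ 2 * (ind r (s.getD a r) * ind r (s.getD b r)) := by
  have hxm : Measurable (xi ν) := by unfold xi; fun_prop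
  have h := wt_prod hν β r n s (fun i => if i = a ∨ i = b then xi ν else fun _ => 1) ?_ ?_ ?_
  · have e1 : ∀ ω : ℕ → V → ℝ, (∏ i ∈ Finset.range n,
        (if i = a ∨ i = b then xi ν else fun _ => 1) (ω i r)) = xi ν (ω a r) * xi ν (ω b r) := by
      intro ω
      rw [Finset.prod_eq_mul a b hab]
      · simp
      · intro c _ hc
        rw [if_neg (by tauto)]
      · intro h; exact absurd (Finset.mem_range.2 ha) h
      · intro h; exact absurd (Finset.mem_range.2 hb) h
    simp only [e1] at h
    refine ⟨h.1, h.2.trans ?_⟩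
    rw [Finset.prod_eq_mul a b hab]
    · simp only [true_or, or_true, if_true]
      rw [integral_xi hν]
      unfold ind
      split_ifs <;> ring
    · intro c _ hc
      rw [if_neg (show ¬ (c = a ∨ c = b) by tauto)]
      simp [integral_zeta hν]
    · intro h; exact absurd (Finset.mem_range.2 ha) h
    · intro h; exact absurd (Finset.mem_range.2 hb) h
  · intro i
    split_ifs
    · exact hxm
    · exact measurable_const
  · intro i
    split_ifs
    · exact int_xi hν
    · exact integrable_const _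
  · intro i
    split_ifs
    · exact int_zeta_xi hν β
    · simpa using int_zeta hν β

/-- one marked layer -/
theorem wt_mark (β : ℝ) (r : V) (n : ℕ) (s : List V) {a : ℕ} (ha : a < n) :
    Integrable (fun ω => wt ν β r n s ω * xi ν (ω a r)) (env V ν) ∧
    ∫ ω, wt ν β r n s ω * xi ν (ω a r) ∂(env V ν) =
      (∫ t, zeta ν β t * xi ν t ∂ν) * ind r (s.getD a r) := by
  have hxm : Measurable (xi ν) := by unfold xi; fun_prop
  have h := wt_prod hν β r n s (fun i => if i = a then xi ν else fun _ => 1) ?_ ?_ ?_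
  · have e1 : ∀ ω : ℕ → V → ℝ, (∏ i ∈ Finset.range n,
        (if i = a then xi ν else fun _ => 1) (ω i r)) = xi ν (ω a r) := by
      intro ω
      rw [Finset.prod_eq_single a]
      · simp
      · intro c _ hc
        rw [if_neg hc]
      · intro h; exact absurd (Finset.mem_range.2 ha) h
    simp only [e1] at h
    refine ⟨h.1, h.2.trans ?_⟩
    rw [Finset.prod_eq_single a]
    · simp only [if_true]
      rw [integral_xi hν]
      unfold ind
      split_ifs <;> ring
    · intro c _ hc
      rw [if_neg hc]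
      simp [integral_zeta hν]
    · intro h; exact absurd (Finset.mem_range.2 ha) h
  · intro i
    split_ifs
    · exact hxm
    · exact measurable_const
  · intro i
    split_ifs
    · exact int_xi hν
    · exact integrable_const _
  · intro i
    split_ifs
    · exact int_zeta_xi hν β
    · simpa using int_zeta hν β

/-- the constant of the diagonal terms -/
noncomputable def CC (ν : Measure ℝ) (β : ℝ) : ℝ :=
  (∫ t, zeta ν β t * xi ν t ^ 2 ∂ν) + ∫ t, xi ν t ^ 2 ∂ν

/-- a layer marked twice -/
theorem wt_sq (β : ℝ) (r : V) (n : ℕ) (s : List V) {a : ℕ} (ha : a < n) :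
    Integrable (fun ω => wt ν β r n s ω * (xi ν (ω a r) * xi ν (ω a r))) (env V ν) ∧
    ∫ ω, wt ν β r n s ω * (xi ν (ω a r) * xi ν (ω a r)) ∂(env V ν) ≤ CC ν β := by
  have hxm : Measurable (xi ν) := by unfold xi; fun_prop
  have h := wt_prod hν β r n s (fun i => if i = a then fun t => xi ν t ^ 2 else fun _ => 1) ?_ ?_ ?_
  · have e1 : ∀ ω : ℕ → V → ℝ, (∏ i ∈ Finset.range n,
        (if i = a then fun t => xi ν t ^ 2 else fun _ => 1) (ω i r)) =
          xi ν (ω a r) * xi ν (ω a r) := by
      intro ω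
      rw [Finset.prod_eq_single a]
      · simp only [if_true]; ring
      · intro c _ hc
        rw [if_neg hc]
      · intro h; exact absurd (Finset.mem_range.2 ha) h
    simp only [e1] at h
    refine ⟨h.1, h.2.le.trans ?_⟩
    rw [Finset.prod_eq_single a]
    · simp only [if_true]
      have h1 : 0 ≤ ∫ t, zeta ν β t * xi ν t ^ 2 ∂ν :=
        integral_nonneg fun t => mul_nonneg (zeta_pos β t).le (sq_nonneg _)
      have h2 : 0 ≤ ∫ t, xi ν t ^ 2 ∂ν := integral_nonneg fun t => sq_nonneg _
      unfold CC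
      split_ifs <;> linarith
    · intro c _ hc
      rw [if_neg hc]
      simp [integral_zeta hν]
    · intro h; exact absurd (Finset.mem_range.2 ha) h
  · intro i
    split_ifs
    · exact hxm.pow_const 2
    · exact measurable_const
  · intro i
    split_ifs
    · exact int_xi2 hν
    · exact integrable_const _
  · intro i
    split_ifs
    · exact int_zeta_xi2 hν β
    · simpa using int_zeta hν β

/-- without the weight -/
theorem free_two (r : V) {a b : ℕ} (hab : a ≠ b) :
    Integrable (fun ω => xi ν (ω a r) * xi ν (ω b r)) (env V ν) ∧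
    ∫ ω, xi ν (ω a r) * xi ν (ω b r) ∂(env V ν) = 0 := by
  have hz : ∀ t, zeta ν 0 t = 1 := by
    intro t
    rw [zeta_eq hν]
    simp
  have hw : ∀ n s (ω : ℕ → V → ℝ), wt ν 0 r n s ω = 1 := by
    intro n s ω
    rw [wt_eq]
    simp [hz]
  have h := wt_two hν 0 r (a + b + 1) [] (show a < a + b + 1 by omega)
    (show b < a + b + 1 by omega) hab
  simp only [hw, one_mul, hz, integral_xi hν] at h
  refine ⟨h.1, h.2.trans ?_⟩
  ring

theorem free_sq (r : V) (a : ℕ) :
    Integrable (fun ω => xi ν (ω a r) * xi ν (ω a r)) (env V ν) ∧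
    ∫ ω, xi ν (ω a r) * xi ν (ω a r) ∂(env V ν) = ∫ t, xi ν t ^ 2 ∂ν := by
  have hl := lay_one ν r (fun t => xi ν t * xi ν t) (by simpa [sq] using int_xi2 hν)
  have hmap : (env V ν).map (fun ω => ω a) = lay V ν :=
    Measure.infinitePi_map_eval (fun _ : ℕ => lay V ν) a
  have hmeas : Measurable (fun ω : ℕ → V → ℝ => ω a) := measurable_pi_apply _
  have hl1 := hl.1
  rw [← hmap] at hl1
  refine ⟨hl1.comp_measurable hmeas, ?_⟩
  rw [← integral_map hmeas.aemeasurable hl1.aestronglyMeasurable (f := fun e : V → ℝ =>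
    xi ν (e r) * xi ν (e r)), hmap, hl.2]
  simp [sq]

end

end Pool.Agent.R784.PT
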