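import Pool.Agent.R784.PT.A3

/-! Second moment estimates. -/

open MeasureTheory ProbabilityTheory Filter Topology

namespace Pool.Agent.R784.PT

theorem EW_sum {V : Type} {A : (V → ℝ) → V → ℝ} (hA : IsAvg A) (n : ℕ) (x : V) {T : Type}
    (I : Finset T) (F : T → List V → ℝ) :
    EW A n x (fun s => ∑ a ∈ I, F a s) = ∑ a ∈ I, EW A n x (F a) := by
  obtain ⟨ι, _, p, path, -, -, -, hrep⟩ := EW_repr hA n x
  simp only [hrep]
  rw [Finset.sum_comm]
  exact Finset.sum_congr rfl fun i _ => Finset.mul_sum _ _ _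

theorem dsum (f : ℕ → ℕ → ℝ) (hf : ∀ a b, f a b = f b a) (s : ℕ) :
    ∑ a ∈ Finset.range s, ∑ b ∈ Finset.range s, f a b =
      ∑ a ∈ Finset.range s, f a a + 2 * ∑ b ∈ Finset.range s, ∑ a ∈ Finset.range b, f a b := by
  induction s with
  | zero => simp
  | succ s ih =>
    rw [Finset.sum_range_succ, Finset.sum_range_succ (fun a => f a a),
      Finset.sum_range_succ (fun b => ∑ a ∈ Finset.range b, f a b)]
    have h1 : ∑ a ∈ Finset.range s, ∑ b ∈ Finset.range (s + 1), f a b =
        ∑ a ∈ Finset.range s, ∑ b ∈ Finset.range s, f a b + ∑ a ∈ Finset.range s, f a s := by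
      rw [← Finset.sum_add_distrib]
      exact Finset.sum_congr rfl fun a _ => Finset.sum_range_succ _ _
    rw [h1, ih, Finset.sum_range_succ]
    have h2 : ∑ b ∈ Finset.range s, f s b = ∑ a ∈ Finset.range s, f a s :=
      Finset.sum_congr rfl fun b _ => hf s b
    rw [h2]
    ring

variable {V : Type} [DecidableEq V]

/-- partition function -/
noncomputable def WW (A : (V → ℝ) → V → ℝ) (ν : Measure ℝ) (β : ℝ) (r : V) (n : ℕ)
    (ω : ℕ → V → ℝ) : ℝ := EW A n r (fun s => wt ν β r n s ω)

/-- linear statistic -/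
noncomputable def LL (ν : Measure ℝ) (r : V) (s : ℕ) (v : ℕ → ℝ) (ω : ℕ → V → ℝ) : ℝ :=
  ∑ a ∈ Finset.range s, v a * xi ν (ω a r)

variable {A : (V → ℝ) → V → ℝ} (hA : IsAvg A)
variable {ν : Measure ℝ} [IsProbabilityMeasure ν] (hν : ∀ b : ℝ, Integrable (fun t => Real.exp (b * t)) ν)

include hA

omit [IsProbabilityMeasure ν] [DecidableEq V] in
theorem swap (β : ℝ) (r : V) (n : ℕ) (X : (ℕ → V → ℝ) → ℝ)
    (hX : ∀ s, Integrable (fun ω => wt ν β r n s ω * X ω) (env V ν)) :
    Integrable (fun ω => WW A ν β r n ω * X ω) (env V ν) ∧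
      ∫ ω, WW A ν β r n ω * X ω ∂(env V ν) =
        EW A n r (fun s => ∫ ω, wt ν β r n s ω * X ω ∂(env V ν)) := by
  obtain ⟨ι, _, p, path, -, -, -, hrep⟩ := EW_repr hA n r
  have e1 : ∀ ω, WW A ν β r n ω * X ω = ∑ i, p i * (wt ν β r n (path i) ω * X ω) := by
    intro ω
    unfold WW
    rw [hrep, Finset.sum_mul]
    exact Finset.sum_congr rfl fun i _ => by ring
  simp only [e1]
  constructor
  · exact integrable_finsetSum _ fun i _ => (hX _).const_mul _
  · rw [integral_finsetSum _ fun i _ => (hX _).const_mul _, hrep]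
    exact Finset.sum_congr rfl fun i _ => integral_const_mul _ _

include hν

omit [DecidableEq V] in
theorem WW_one (β : ℝ) (r : V) (n : ℕ) :
    Integrable (WW A ν β r n) (env V ν) ∧ ∫ ω, WW A ν β r n ω ∂(env V ν) = 1 := by
  classical
  have h := swap hA (ν := ν) β r n (fun _ => 1) (fun s => by simpa using (wt_one hν β r n s).1)
  simp only [mul_one] at h
  refine ⟨h.1, h.2.trans ?_⟩
  have : (fun s => ∫ ω, wt ν β r n s ω ∂(env V ν)) = fun _ => 1 :=
    funext fun s => (wt_one hν β r n s).2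
  rw [this, EW_const hA]

theorem WL (β : ℝ) (r : V) (n s : ℕ) (hs : s ≤ n) (v : ℕ → ℝ) :
    Integrable (fun ω => WW A ν β r n ω * LL ν r s v ω) (env V ν) ∧
      ∫ ω, WW A ν β r n ω * LL ν r s v ω ∂(env V ν) =
        (∫ t, zeta ν β t * xi ν t ∂ν) * ∑ a ∈ Finset.range s, v a * A^[a + 1] (ind r) r := by
  have hint : ∀ l : List V, ∀ a ∈ Finset.range s,
      Integrable (fun ω => v a * (wt ν β r n l ω * xi ν (ω a r))) (env V ν) := fun l a ha =>
    (wt_mark hν β r n l (lt_of_lt_of_le (Finset.mem_range.1 ha) hs)).1.const_mul _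
  have e1 : ∀ l ω, wt ν β r n l ω * LL ν r s v ω =
      ∑ a ∈ Finset.range s, v a * (wt ν β r n l ω * xi ν (ω a r)) := by
    intro l ω
    unfold LL
    rw [Finset.mul_sum]
    exact Finset.sum_congr rfl fun i _ => by ring
  have h := swap hA (ν := ν) β r n (LL ν r s v) (fun l => by
    simp only [e1]
    exact integrable_finsetSum _ (hint l))
  refine ⟨h.1, h.2.trans ?_⟩
  have e2 : (fun l => ∫ ω, wt ν β r n l ω * LL ν r s v ω ∂(env V ν)) = fun l =>
      ∑ a ∈ Finset.range s, ind r (l.getD a r) * (v a * ∫ t, zeta ν β t * xi ν t ∂ν) := by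
    funext l
    simp only [e1]
    rw [integral_finsetSum _ (hint l)]
    refine Finset.sum_congr rfl fun a ha => ?_
    rw [integral_const_mul, (wt_mark hν β r n l (lt_of_lt_of_le (Finset.mem_range.1 ha) hs)).2]
    ring
  rw [e2, EW_sum hA, Finset.mul_sum]
  refine Finset.sum_congr rfl fun a ha => ?_
  rw [EW_mul hA, EW_one hA r a n r (lt_of_lt_of_le (Finset.mem_range.1 ha) hs)]
  ring

/-- joint return probabilities -/
noncomputable def UU (A : (V → ℝ) → V → ℝ) (r : V) (a b : ℕ) : ℝ :=
  A^[min a b + 1] (ind r) r * A^[max a b - min a b] (ind r) r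

omit hν [IsProbabilityMeasure ν] in
theorem EW_UU (r : V) {a b n : ℕ} (hab : a ≠ b) (ha : a < n) (hb : b < n) :
    EW A n r (fun s => ind r (s.getD a r) * ind r (s.getD b r)) = UU A r a b := by
  unfold UU
  rcases lt_or_gt_of_ne hab with h | h
  · rw [min_eq_left h.le, max_eq_right h.le, EW_two hA r a b n r h hb]
  · rw [min_eq_right h.le, max_eq_left h.le, ← EW_two hA r b a n r h ha]
    congr 1
    funext s
    ring

theorem WL2 (β : ℝ) (r : V) (n s : ℕ) (hs : s ≤ n) (v : ℕ → ℝ) (hv : ∀ a, 0 ≤ v a) :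
    Integrable (fun ω => WW A ν β r n ω * LL ν r s v ω ^ 2) (env V ν) ∧
      ∫ ω, WW A ν β r n ω * LL ν r s v ω ^ 2 ∂(env V ν) ≤
        CC ν β * ∑ a ∈ Finset.range s, v a ^ 2 + (∫ t, zeta ν β t * xi ν t ∂ν) ^ 2 *
          (2 * ∑ b ∈ Finset.range s, ∑ a ∈ Finset.range b,
            v a * v b * (A^[a + 1] (ind r) r * A^[b - a] (ind r) r)) := by
  set Δ := ∫ t, zeta ν β t * xi ν t ∂ν with hΔ
  have hint1 : ∀ l : List V, ∀ a ∈ Finset.range s, ∀ b ∈ Finset.range s,
      Integrable (fun ω => v a * v b * (wt ν β r n l ω * (xi ν (ω a r) * xi ν (ω b r))))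
        (env V ν) := by
    intro l a ha b hb
    have ha' := lt_of_lt_of_le (Finset.mem_range.1 ha) hs
    have hb' := lt_of_lt_of_le (Finset.mem_range.1 hb) hs
    by_cases hab : a = b
    · subst hab
      exact (wt_sq hν β r n l ha').1.const_mul _
    · exact (wt_two hν β r n l ha' hb' hab).1.const_mul _
  have e1 : ∀ l ω, wt ν β r n l ω * LL ν r s v ω ^ 2 =
      ∑ a ∈ Finset.range s, ∑ b ∈ Finset.range s,
        v a * v b * (wt ν β r n l ω * (xi ν (ω a r) * xi ν (ω b r))) := by
    intro l ω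
    unfold LL
    rw [sq, Finset.sum_mul_sum, Finset.mul_sum]
    refine Finset.sum_congr rfl fun a _ => ?_
    rw [Finset.mul_sum]
    exact Finset.sum_congr rfl fun b _ => by ring
  have h := swap hA (ν := ν) β r n (fun ω => LL ν r s v ω ^ 2) (fun l => by
    simp only [e1]
    exact integrable_finsetSum _ fun a ha => integrable_finsetSum _ fun b hb => hint1 l a ha b hb)
  refine ⟨h.1, h.2.le.trans ?_⟩
  -- bound for each path
  have e2 : ∀ l : List V, l.length = n → ∫ ω, wt ν β r n l ω * LL ν r s v ω ^ 2 ∂(env V ν) ≤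
      ∑ a ∈ Finset.range s, ∑ b ∈ Finset.range s,
        (if a = b then CC ν β else Δ ^ 2 * (ind r (l.getD a r) * ind r (l.getD b r))) *
          (v a * v b) := by
    intro l _
    simp only [e1]
    rw [integral_finsetSum _ fun a ha => integrable_finsetSum _ fun b hb => hint1 l a ha b hb]
    refine Finset.sum_le_sum fun a ha => ?_
    rw [integral_finsetSum _ fun b hb => hint1 l a ha b hb]
    refine Finset.sum_le_sum fun b hb => ?_
    have ha' := lt_of_lt_of_le (Finset.mem_range.1 ha) hs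
    have hb' := lt_of_lt_of_le (Finset.mem_range.1 hb) hs
    rw [integral_const_mul, mul_comm (v a * v b)]
    apply mul_le_mul_of_nonneg_right _ (mul_nonneg (hv a) (hv b))
    by_cases hab : a = b
    · subst hab
      rw [if_pos rfl]
      exact (wt_sq hν β r n l ha').2
    · rw [if_neg hab]
      exact (wt_two hν β r n l ha' hb' hab).2.le
  refine (EW_mono hA e2).trans (le_of_eq ?_)
  rw [EW_sum hA]
  have e3 : ∀ a ∈ Finset.range s, EW A n r (fun l => ∑ b ∈ Finset.range s,
        (if a = b then CC ν β else Δ ^ 2 * (ind r (l.getD a r) * ind r (l.getD b r))) *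
          (v a * v b)) =
      ∑ b ∈ Finset.range s, (if a = b then CC ν β else Δ ^ 2 * UU A r a b) * (v a * v b) := by
    intro a ha
    rw [EW_sum hA]
    refine Finset.sum_congr rfl fun b hb => ?_
    have ha' := lt_of_lt_of_le (Finset.mem_range.1 ha) hs
    have hb' := lt_of_lt_of_le (Finset.mem_range.1 hb) hs
    rw [EW_mul hA]
    congr 1
    by_cases hab : a = b
    · simp only [hab, if_true]
      exact EW_const hA _ _ _
    · simp only [if_neg hab]
      rw [← EW_UU hA r hab ha' hb', mul_comm, ← EW_mul hA]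
      congr 1
      funext l
      ring
  rw [Finset.sum_congr rfl e3, dsum]
  · congr 1
    · rw [Finset.mul_sum]
      exact Finset.sum_congr rfl fun a _ => by rw [if_pos rfl]; ring
    · rw [Finset.mul_sum, Finset.mul_sum, Finset.mul_sum]
      refine Finset.sum_congr rfl fun b _ => ?_
      rw [Finset.mul_sum, Finset.mul_sum, Finset.mul_sum]
      refine Finset.sum_congr rfl fun a ha => ?_
      have hab := Finset.mem_range.1 ha
      rw [if_neg hab.ne]
      unfold UU
      rw [min_eq_left hab.le, max_eq_right hab.le]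
      ring
  · intro a b
    by_cases hab : a = b
    · rw [hab]
    · rw [if_neg hab, if_neg (Ne.symm hab)]
      unfold UU
      rw [min_comm, max_comm]
      ring

omit hA in
theorem L2 (β : ℝ) (r : V) (s : ℕ) (v : ℕ → ℝ) :
    Integrable (fun ω => LL ν r s v ω ^ 2) (env V ν) ∧
      ∫ ω, LL ν r s v ω ^ 2 ∂(env V ν) ≤ CC ν β * ∑ a ∈ Finset.range s, v a ^ 2 := by
  have hint1 : ∀ a ∈ Finset.range s, ∀ b ∈ Finset.range s,
      Integrable (fun ω => v a * v b * (xi ν (ω a r) * xi ν (ω b r))) (env V ν) := by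
    intro a _ b _
    by_cases hab : a = b
    · subst hab
      exact (free_sq hν r a).1.const_mul _
    · exact (free_two hν r hab).1.const_mul _
  have e1 : ∀ ω, LL ν r s v ω ^ 2 =
      ∑ a ∈ Finset.range s, ∑ b ∈ Finset.range s, v a * v b * (xi ν (ω a r) * xi ν (ω b r)) := by
    intro ω
    unfold LL
    rw [sq, Finset.sum_mul_sum]
    refine Finset.sum_congr rfl fun a _ => ?_
    exact Finset.sum_congr rfl fun b _ => by ring
  simp only [e1]
  refine ⟨integrable_finsetSum _ fun a ha => integrable_finsetSum _ fun b hb => hint1 a ha b hb,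
    ?_⟩
  rw [integral_finsetSum _ fun a ha => integrable_finsetSum _ fun b hb => hint1 a ha b hb,
    Finset.mul_sum]
  refine Finset.sum_le_sum fun a ha => ?_
  rw [integral_finsetSum _ fun b hb => hint1 a ha b hb, Finset.sum_eq_single a]
  · rw [integral_const_mul, (free_sq hν r a).2]
    have h1 : 0 ≤ ∫ t, zeta ν β t * xi ν t ^ 2 ∂ν :=
      integral_nonneg fun t => mul_nonneg (zeta_pos β t).le (sq_nonneg _)
    unfold CC
    nlinarith [sq_nonneg (v a)]
  · intro b _ hb
    rw [integral_const_mul, (free_two hν r (Ne.symm hb)).2, mul_zero]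
  · intro h; exact absurd ha h

end Pool.Agent.R784.PT
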