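import Pool.Agent.R784.PT.A4

/-! The fractional moment tends to zero. -/

open MeasureTheory ProbabilityTheory Filter Topology

namespace Pool.Agent.R784.PT

variable {V : Type} [DecidableEq V]
variable {A : (V → ℝ) → V → ℝ} (hA : IsAvg A)
variable {ν : Measure ℝ} [IsProbabilityMeasure ν] (hν : ∀ b : ℝ, Integrable (fun t => Real.exp (b * t)) ν)

include hA

theorem iter_bd (r : V) (k : ℕ) : ∀ x, 0 ≤ A^[k] (ind r) x ∧ A^[k] (ind r) x ≤ 1 := by
  induction k with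
  | zero =>
    intro x
    simp only [Function.iterate_zero, id, ind]
    split_ifs <;> norm_num
  | succ k ih =>
    intro x
    rw [Function.iterate_succ_apply']
    obtain ⟨S, q, hq, hq1, h⟩ := hA x
    rw [h]
    refine ⟨Finset.sum_nonneg fun y hy => mul_nonneg (hq y hy) (ih y).1, ?_⟩
    rw [← hq1]
    exact Finset.sum_le_sum fun y hy => mul_le_of_le_one_right (hq y hy) (ih y).2

omit [DecidableEq V] in
theorem WW_nonneg (ν : Measure ℝ) (β : ℝ) (r : V) (n : ℕ) (ω : ℕ → V → ℝ) :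
    0 ≤ WW A ν β r n ω := by
  obtain ⟨ι, _, p, path, hp, -, -, hrep⟩ := EW_repr hA n r
  unfold WW
  rw [hrep]
  exact Finset.sum_nonneg fun i _ => mul_nonneg (hp i) (Real.exp_pos _).le

omit hA [DecidableEq V] in
theorem sqrt_pt {W L t η : ℝ} (hW : 0 ≤ W) (ht : 0 < t) (hη : 0 < η) :
    √W ≤ η / 2 * (W + 1) + (L ^ 2 + W * (L - 2 * t) ^ 2) / (2 * η * t ^ 2) := by
  have h0 := Real.sqrt_nonneg W
  have h1 := Real.sq_sqrt hW
  set q := √W with hq
  have hcase : q ≤ η / 2 * W + 1 / (2 * η) := by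
    rw [← h1]
    have : 0 ≤ (η * q - 1) ^ 2 / (2 * η) := by positivity
    have h2 : (η * q - 1) ^ 2 / (2 * η) = η / 2 * q ^ 2 + 1 / (2 * η) - q := by
      field_simp; ring
    linarith
  have hcase2 : q ≤ η / 2 + W / (2 * η) := by
    rw [← h1]
    have : 0 ≤ (q - η) ^ 2 / (2 * η) := by positivity
    have h2 : (q - η) ^ 2 / (2 * η) = η / 2 + q ^ 2 / (2 * η) - q := by
      field_simp; ring
    linarith
  have ht2 : 0 < 2 * η * t ^ 2 := by positivity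
  rcases le_or_gt t L with h | h
  · have h3 : 1 / (2 * η) ≤ (L ^ 2 + W * (L - 2 * t) ^ 2) / (2 * η * t ^ 2) := by
      rw [div_le_div_iff₀ (by positivity) ht2]
      have h4 : t ^ 2 ≤ L ^ 2 := by nlinarith
      have h5 : 0 ≤ W * (L - 2 * t) ^ 2 := mul_nonneg hW (sq_nonneg _)
      nlinarith
    nlinarith
  · have h3 : W / (2 * η) ≤ (L ^ 2 + W * (L - 2 * t) ^ 2) / (2 * η * t ^ 2) := by
      rw [div_le_div_iff₀ (by positivity) ht2]
      have h4 : t ^ 2 ≤ (L - 2 * t) ^ 2 := by nlinarith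
      have h5 : W * t ^ 2 ≤ W * (L - 2 * t) ^ 2 := mul_le_mul_of_nonneg_left h4 hW
      have h6 : 0 ≤ L ^ 2 := sq_nonneg _
      nlinarith
    nlinarith

include hν

theorem sqrt_est (β : ℝ) (r : V) (s n : ℕ) (hsn : s ≤ n) (v : ℕ → ℝ) (hv : ∀ a, 0 ≤ v a)
    {B Δ : ℝ} (hB : 0 < B) (hΔ : Δ = ∫ t, zeta ν β t * xi ν t ∂ν) (hΔ0 : 0 < Δ)
    (h1 : ∑ a ∈ Finset.range s, v a * A^[a + 1] (ind r) r = B)
    (h2 : ∑ a ∈ Finset.range s, v a ^ 2 ≤ B)
    (h3 : 2 * ∑ b ∈ Finset.range s, ∑ a ∈ Finset.range b,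
            v a * v b * (A^[a + 1] (ind r) r * A^[b - a] (ind r) r) ≤ B ^ 2 + 4 * B)
    {η : ℝ} (hη : 0 < η) :
    ∫ ω, √(WW A ν β r n ω) ∂(env V ν) ≤
      η + (2 * (2 * CC ν β + 4 * Δ ^ 2) / Δ ^ 2) / (η * B) := by
  have hW1 := WW_one hA hν β r n
  have hL := WL hA hν β r n s hsn v
  have hL2 := WL2 hA hν β r n s hsn v hv
  have hLL := L2 hν β r s v
  rw [← hΔ] at hL hL2
  rw [h1] at hL
  have hC : 0 ≤ CC ν β := by
    unfold CC
    exact add_nonneg (integral_nonneg fun t => mul_nonneg (zeta_pos β t).le (sq_nonneg _))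
      (integral_nonneg fun t => sq_nonneg _)
  set t := Δ * B / 2 with ht
  have ht0 : 0 < t := by positivity
  have hexp : ∀ ω, WW A ν β r n ω * (LL ν r s v ω - 2 * t) ^ 2 =
      WW A ν β r n ω * LL ν r s v ω ^ 2 - 4 * t * (WW A ν β r n ω * LL ν r s v ω) +
        4 * t ^ 2 * WW A ν β r n ω := fun ω => by ring
  have hint3 : Integrable (fun ω => WW A ν β r n ω * (LL ν r s v ω - 2 * t) ^ 2) (env V ν) := by
    simp only [hexp]
    exact (hL2.1.sub (hL.1.const_mul _)).add (hW1.1.const_mul _)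
  have hval3 : ∫ ω, WW A ν β r n ω * (LL ν r s v ω - 2 * t) ^ 2 ∂(env V ν) ≤
      CC ν β * B + 4 * Δ ^ 2 * B := by
    simp only [hexp]
    have i1 : Integrable (fun ω => 4 * t * (WW A ν β r n ω * LL ν r s v ω)) (env V ν) :=
      hL.1.const_mul _
    have i2 : Integrable (fun ω => WW A ν β r n ω * LL ν r s v ω ^ 2 -
        4 * t * (WW A ν β r n ω * LL ν r s v ω)) (env V ν) := hL2.1.sub i1
    have i3 : Integrable (fun ω => 4 * t ^ 2 * WW A ν β r n ω) (env V ν) := hW1.1.const_mul _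
    rw [integral_add i2 i3, integral_sub hL2.1 i1, integral_const_mul, integral_const_mul, hL.2,
      hW1.2]
    have e1 := hL2.2
    have e2 : CC ν β * ∑ a ∈ Finset.range s, v a ^ 2 ≤ CC ν β * B :=
      mul_le_mul_of_nonneg_left h2 hC
    have e3 := mul_le_mul_of_nonneg_left h3 (sq_nonneg Δ)
    rw [ht]
    nlinarith
  have hrhs : Integrable (fun ω => η / 2 * (WW A ν β r n ω + 1) + (LL ν r s v ω ^ 2 +
      WW A ν β r n ω * (LL ν r s v ω - 2 * t) ^ 2) / (2 * η * t ^ 2)) (env V ν) :=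
    ((hW1.1.add (integrable_const 1)).const_mul _).add ((hLL.1.add hint3).div_const _)
  have hle : ∫ ω, √(WW A ν β r n ω) ∂(env V ν) ≤ ∫ ω, (η / 2 * (WW A ν β r n ω + 1) +
      (LL ν r s v ω ^ 2 + WW A ν β r n ω * (LL ν r s v ω - 2 * t) ^ 2) / (2 * η * t ^ 2))
        ∂(env V ν) := by
    refine integral_mono_of_nonneg (Filter.Eventually.of_forall fun ω => Real.sqrt_nonneg _) hrhs
      (Filter.Eventually.of_forall fun ω => ?_)
    exact sqrt_pt (WW_nonneg hA ν β r n ω) ht0 hη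
  refine hle.trans ?_
  have i4 : Integrable (fun ω => η / 2 * (WW A ν β r n ω + 1)) (env V ν) :=
    (hW1.1.add (integrable_const 1)).const_mul _
  have i5 : Integrable (fun ω => (LL ν r s v ω ^ 2 +
      WW A ν β r n ω * (LL ν r s v ω - 2 * t) ^ 2) / (2 * η * t ^ 2)) (env V ν) :=
    (hLL.1.add hint3).div_const _
  rw [integral_add i4 i5, integral_const_mul, integral_div, integral_add hLL.1 hint3]
  have e0 : ∫ ω, (WW A ν β r n ω + 1) ∂(env V ν) = 2 := by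
    rw [integral_add hW1.1 (integrable_const 1), hW1.2]
    simp; norm_num
  rw [e0]
  have e4 : ∫ ω, LL ν r s v ω ^ 2 ∂(env V ν) ≤ CC ν β * B :=
    hLL.2.trans (mul_le_mul_of_nonneg_left h2 hC)
  have e5 : (∫ ω, LL ν r s v ω ^ 2 ∂(env V ν) +
      ∫ ω, WW A ν β r n ω * (LL ν r s v ω - 2 * t) ^ 2 ∂(env V ν)) / (2 * η * t ^ 2) ≤
      ((2 * CC ν β + 4 * Δ ^ 2) * B) / (2 * η * t ^ 2) := by
    apply div_le_div_of_nonneg_right _ (by positivity)
    linarith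
  have e6 : ((2 * CC ν β + 4 * Δ ^ 2) * B) / (2 * η * t ^ 2) =
      (2 * (2 * CC ν β + 4 * Δ ^ 2) / Δ ^ 2) / (η * B) := by
    rw [ht]; field_simp
  rw [← e6]
  linarith

/-- the fractional moment tends to zero -/
theorem sqrt_small (hW : S_W) (hc : ∀ c : ℝ, ν ≠ Measure.dirac c) (r : V)
    (hu : ¬ Summable (fun n => (A^[n] (ind r) r) ^ 2)) {β : ℝ} (hβ : 0 < β) {ε : ℝ} (hε : 0 < ε) :
    ∃ N, ∀ n ≥ N, ∫ ω, √(WW A ν β r n ω) ∂(env V ν) ≤ ε := by
  have hΔ0 := delta_pos hν hc hβ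
  set Δ := ∫ t, zeta ν β t * xi ν t ∂ν with hΔ
  set K := 2 * (2 * CC ν β + 4 * Δ ^ 2) / Δ ^ 2 with hK
  obtain ⟨B0, hB0⟩ := exists_nat_gt (K / (ε / 2) / (ε / 2))
  obtain ⟨s, v, hv, hv0, -, h1, h2, h3⟩ := hW (fun n => A^[n] (ind r) r)
    (fun n => (iter_bd hA r n r).1) (fun n => (iter_bd hA r n r).2) hu (B0 + 1)
  refine ⟨s, fun n hn => ?_⟩
  have hBpos : (0 : ℝ) < ((B0 + 1 : ℕ) : ℝ) := by positivity
  have h1' : ∑ a ∈ Finset.range s, v (a + 1) * A^[a + 1] (ind r) r = ((B0 + 1 : ℕ) : ℝ) := by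
    rw [← h1, Finset.sum_range_succ' _ s, hv0]
    ring
  have h2' : ∑ a ∈ Finset.range s, v (a + 1) ^ 2 ≤ ((B0 + 1 : ℕ) : ℝ) := by
    rw [Finset.sum_range_succ' _ s, hv0] at h2
    simpa using h2
  have h3' : 2 * ∑ b ∈ Finset.range s, ∑ a ∈ Finset.range b,
      v (a + 1) * v (b + 1) * (A^[a + 1] (ind r) r * A^[b - a] (ind r) r) ≤
        ((B0 + 1 : ℕ) : ℝ) ^ 2 + 4 * ((B0 + 1 : ℕ) : ℝ) := by
    refine le_trans (le_of_eq ?_) h3
    congr 1
    rw [Finset.sum_range_succ' _ s]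
    simp only [Finset.range_zero, Finset.sum_empty, add_zero]
    refine Finset.sum_congr rfl fun b _ => ?_
    rw [Finset.sum_range_succ' _ b, hv0]
    simp only [zero_mul, add_zero, Nat.add_sub_add_right]
  have := sqrt_est hA hν β r s n hn (fun a => v (a + 1)) (fun a => hv _) hBpos hΔ hΔ0 h1' h2' h3'
    (η := ε / 2) (by positivity)
  refine this.trans ?_
  rw [← hK]
  have hlt : K / (ε / 2 * ((B0 + 1 : ℕ) : ℝ)) ≤ ε / 2 := by
    rw [div_le_iff₀ (by positivity)]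
    rw [div_lt_iff₀ (by positivity), div_lt_iff₀ (by positivity)] at hB0
    push_cast
    nlinarith [mul_pos hε hε]
  linarith

end Pool.Agent.R784.PT
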