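import Pool.Agent.R784.PT.A5

/-! The martingale property and the conclusion of the probabilistic part. -/

open MeasureTheory ProbabilityTheory Filter Topology
open scoped ENNReal

namespace Pool.Agent.R784.PT

/-- the filtration generated by the layers -/
def Fil (V : Type) : Filtration ℕ (MeasurableSpace.pi : MeasurableSpace (ℕ → V → ℝ)) where
  seq n := ⨆ k ∈ {k : ℕ | k < n}, MeasurableSpace.comap (fun ω : ℕ → V → ℝ => ω k) inferInstance
  mono' := fun _ _ h => biSup_mono fun _ hk => lt_of_lt_of_le hk h
  le' := fun _ => iSup₂_le fun k _ => (measurable_pi_apply k).comap_le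

theorem Fil_coord {V : Type} {n i : ℕ} (h : i < n) (y : V) :
    Measurable[Fil V n] (fun ω : ℕ → V → ℝ => ω i y) := by
  have h1 : Measurable[MeasurableSpace.comap (fun ω : ℕ → V → ℝ => ω i) inferInstance]
      (fun ω : ℕ → V → ℝ => ω i y) :=
    (measurable_pi_apply y).comp (comap_measurable _)
  refine h1.mono ?_ le_rfl
  exact le_iSup₂_of_le i h le_rfl

theorem Fil_indep {V : Type} (ν : Measure ℝ) [IsProbabilityMeasure ν] (n : ℕ) :
    Indep (MeasurableSpace.comap (fun ω : ℕ → V → ℝ => ω n) inferInstance) (Fil V n)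
      (env V ν) := by
  have h := iIndepFun_infinitePi (P := fun _ : ℕ => lay V ν) (X := fun _ e => e)
      (fun _ => measurable_id)
  have h2 := indep_iSup_of_disjoint (m := fun k => MeasurableSpace.comap
    (fun ω : ℕ → V → ℝ => ω k) inferInstance) (μ := env V ν)
    (fun k => (measurable_pi_apply k).comap_le) h (S := {n}) (T := {k | k < n}) (by simp)
  rwa [iSup_singleton] at h2

variable {V : Type} [DecidableEq V]
variable {A : (V → ℝ) → V → ℝ} (hA : IsAvg A)
variable {ν : Measure ℝ} [IsProbabilityMeasure ν] (hν : ∀ b : ℝ, Integrable (fun t => Real.exp (b * t)) ν)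

omit [DecidableEq V] [IsProbabilityMeasure ν] in
theorem wt_meas (β : ℝ) (r : V) (n : ℕ) (s : List V) :
    Measurable[Fil V n] (wt ν β r n s) := by
  unfold wt
  refine Real.measurable_exp.comp ?_
  refine Finset.measurable_sum _ fun i hi => ?_
  exact ((Fil_coord (Finset.mem_range.1 hi) _).const_mul _).sub_const _

include hν in
omit [DecidableEq V] in
theorem wt_cond (β : ℝ) (r : V) (n : ℕ) (s : List V) :
    (env V ν)[wt ν β r (n + 1) s | Fil V n] =ᵐ[env V ν] wt ν β r n s := by
  classical
  set g : (ℕ → V → ℝ) → ℝ := fun ω => zeta ν β (ω n (s.getD n r)) with hg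
  have e1 : wt ν β r (n + 1) s = wt ν β r n s * g := by
    funext ω
    rw [Pi.mul_apply, wt_eq, wt_eq, Finset.prod_range_succ]
  have hzm : Measurable (zeta ν β) := by unfold zeta; fun_prop
  have hgm : Measurable[MeasurableSpace.comap (fun ω : ℕ → V → ℝ => ω n) inferInstance] g :=
    (hzm.comp (measurable_pi_apply (s.getD n r)) :
      Measurable fun e : V → ℝ => zeta ν β (e (s.getD n r))).comp
        (comap_measurable (fun ω : ℕ → V → ℝ => ω n))
  have hmap : (env V ν).map (fun ω => ω n) = lay V ν :=
    Measure.infinitePi_map_eval (fun _ : ℕ => lay V ν) n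
  have hmeas : Measurable (fun ω : ℕ → V → ℝ => ω n) := measurable_pi_apply _
  have hl := lay_one ν (s.getD n r) (zeta ν β) (int_zeta hν β)
  have hgi : Integrable g (env V ν) := by
    have := hl.1
    rw [← hmap] at this
    exact this.comp_measurable hmeas
  have hgv : ∫ ω, g ω ∂(env V ν) = 1 := by
    have := hl.1
    rw [← hmap] at this
    rw [← integral_zeta hν β, ← hl.2, ← hmap, integral_map hmeas.aemeasurable
      this.aestronglyMeasurable]
  have hint : Integrable (wt ν β r n s * g) (env V ν) := by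
    rw [← e1]; exact (wt_one hν β r (n + 1) s).1
  rw [e1]
  refine (condExp_mul_of_stronglyMeasurable_left (wt_meas β r n s).stronglyMeasurable hint
    hgi).trans ?_
  have h3 := condExp_indep_eq (hmeas.comap_le) ((Fil V).le n) hgm.stronglyMeasurable
    (Fil_indep ν n)
  filter_upwards [h3] with ω hω
  rw [Pi.mul_apply, hω, hgv, mul_one]

include hA hν in
theorem WW_mart (β : ℝ) (r : V) : Martingale (WW A ν β r) (Fil V) (env V ν) := by
  refine martingale_nat ?_ (fun n => (WW_one hA hν β r n).1) ?_
  · intro n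
    obtain ⟨ι, _, p, path, -, -, -, hrep⟩ := EW_repr hA n r
    have : WW A ν β r n = fun ω => ∑ i, p i * wt ν β r n (path i) ω := by
      funext ω
      exact hrep _
    rw [this]
    refine Measurable.stronglyMeasurable ?_
    exact Finset.measurable_sum _ fun i _ => (wt_meas β r n (path i)).const_mul _
  · intro n
    obtain ⟨ι, _, p, path, -, -, hlen, hrep⟩ := EW_repr hA (n + 1) r
    have e1 : WW A ν β r (n + 1) = ∑ i, p i • wt ν β r (n + 1) (path i) := by
      funext ω
      rw [Finset.sum_apply]
      exact hrep _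
    have e2 : WW A ν β r n = ∑ i, p i • wt ν β r n (path i) := by
      funext ω
      rw [Finset.sum_apply]
      unfold WW
      rw [← EW_drop hA n r, hrep]
      · rfl
      · intro l hl y
        unfold wt
        congr 1
        refine Finset.sum_congr rfl fun i hi => ?_
        rw [List.getD_append _ _ _ _ (by rw [hl]; exact Finset.mem_range.1 hi)]
    rw [e1, e2]
    have h1 := condExp_finsetSum (μ := env V ν) (s := Finset.univ)
      (f := fun i => p i • wt ν β r (n + 1) (path i))
      (fun i _ => (wt_one hν β r (n + 1) (path i)).1.smul (p i)) (Fil V n)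
    refine (h1.trans ?_).symm
    have h2 : ∀ i, (env V ν)[p i • wt ν β r (n + 1) (path i) | Fil V n] =ᵐ[env V ν]
        p i • wt ν β r n (path i) := by
      intro i
      refine (condExp_smul _ _ _).trans ?_
      filter_upwards [wt_cond hν β r n (path i)] with ω hω
      rw [Pi.smul_apply, Pi.smul_apply, hω]
    have h3 : ∀ᵐ ω ∂(env V ν), ∀ i, (env V ν)[p i • wt ν β r (n + 1) (path i) | Fil V n] ω =
        (p i • wt ν β r n (path i)) ω := ae_all_iff.2 h2
    filter_upwards [h3] with ω hω
    rw [Finset.sum_apply, Finset.sum_apply]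
    exact Finset.sum_congr rfl fun i _ => hω i

include hA hν in
/-- **Part A.** -/
theorem partA (hW : S_W) (hc : ∀ c : ℝ, ν ≠ Measure.dirac c) (r : V)
    (hu : ¬ Summable (fun n => (A^[n] (ind r) r) ^ 2)) {β : ℝ} (hβ : 0 < β) :
    ∀ᵐ ω ∂(env V ν), Tendsto (fun n => WW A ν β r n ω) atTop (𝓝 0) := by
  have hM := WW_mart hA hν β r
  have hbd : ∀ n, eLpNorm (WW A ν β r n) 1 (env V ν) ≤ ((1 : NNReal) : ℝ≥0∞) := by
    intro n
    rw [eLpNorm_one_eq_lintegral_enorm]
    have h1 : ∫⁻ ω, ‖WW A ν β r n ω‖ₑ ∂(env V ν) =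
        ∫⁻ ω, ENNReal.ofReal (WW A ν β r n ω) ∂(env V ν) := by
      refine lintegral_congr fun ω => ?_
      exact Real.enorm_of_nonneg (WW_nonneg hA ν β r n ω)
    rw [h1, ← ofReal_integral_eq_lintegral_ofReal (WW_one hA hν β r n).1
      (Filter.Eventually.of_forall fun ω => WW_nonneg hA ν β r n ω), (WW_one hA hν β r n).2]
    simp
  have hlim := hM.submartingale.ae_tendsto_limitProcess hbd
  set f := (Fil V).limitProcess (WW A ν β r) (env V ν) with hf
  -- Fatou
  have hmeas : ∀ n, Measurable (fun ω => ENNReal.ofReal (√(WW A ν β r n ω))) := by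
    intro n
    have h1 : Measurable (WW A ν β r n) := ((hM.1 n).measurable).mono ((Fil V).le n) le_rfl
    fun_prop
  have hfat := lintegral_liminf_le (μ := env V ν) (u := atTop) hmeas
  have hzero : liminf (fun n => ∫⁻ ω, ENNReal.ofReal (√(WW A ν β r n ω)) ∂(env V ν)) atTop = 0 := by
    have ht : Tendsto (fun n => ∫⁻ ω, ENNReal.ofReal (√(WW A ν β r n ω)) ∂(env V ν)) atTop
        (𝓝 0) := by
      have hr : Tendsto (fun n => ∫ ω, √(WW A ν β r n ω) ∂(env V ν)) atTop (𝓝 0) := by
        rw [Metric.tendsto_atTop]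
        intro ε hε
        obtain ⟨N, hN⟩ := sqrt_small hA hν hW hc r hu hβ (half_pos hε)
        refine ⟨N, fun n hn => ?_⟩
        rw [Real.dist_eq, sub_zero, abs_of_nonneg (integral_nonneg fun ω => Real.sqrt_nonneg _)]
        linarith [hN n hn]
      have h2 : ∀ n, ∫⁻ ω, ENNReal.ofReal (√(WW A ν β r n ω)) ∂(env V ν) =
          ENNReal.ofReal (∫ ω, √(WW A ν β r n ω) ∂(env V ν)) := by
        intro n
        have hW1 := (WW_one hA hν β r n).1
        have hint : Integrable (fun ω => √(WW A ν β r n ω)) (env V ν) := by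
          refine Integrable.mono' (hW1.add (integrable_const 1))
            (Real.continuous_sqrt.comp_aestronglyMeasurable hW1.aestronglyMeasurable)
            (Filter.Eventually.of_forall fun ω => ?_)
          have h0 := WW_nonneg hA ν β r n ω
          rw [Real.norm_of_nonneg (Real.sqrt_nonneg _)]
          have h1 := Real.sq_sqrt h0
          change √(WW A ν β r n ω) ≤ WW A ν β r n ω + 1
          nlinarith [sq_nonneg (√(WW A ν β r n ω) - 1)]
        exact (ofReal_integral_eq_lintegral_ofReal hint
          (Filter.Eventually.of_forall fun ω => Real.sqrt_nonneg _)).symm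
      simp only [h2]
      have := (ENNReal.continuous_ofReal.tendsto 0).comp hr
      rw [ENNReal.ofReal_zero] at this
      exact this
    exact ht.liminf_eq
  rw [hzero] at hfat
  have h0 : ∫⁻ ω, liminf (fun n => ENNReal.ofReal (√(WW A ν β r n ω))) atTop ∂(env V ν) = 0 :=
    le_antisymm hfat bot_le
  have hml : Measurable fun ω => liminf (fun n => ENNReal.ofReal (√(WW A ν β r n ω))) atTop :=
    Measurable.liminf hmeas
  have h4 := (lintegral_eq_zero_iff hml).1 h0
  filter_upwards [hlim, h4] with ω hω h5
  have h6 : Tendsto (fun n => ENNReal.ofReal (√(WW A ν β r n ω))) atTop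
      (𝓝 (ENNReal.ofReal (√(f ω)))) :=
    (ENNReal.continuous_ofReal.tendsto _).comp ((Real.continuous_sqrt.tendsto _).comp hω)
  have h7 : ENNReal.ofReal (√(f ω)) = 0 := h6.liminf_eq.symm.trans h5
  have h8 : 0 ≤ f ω := ge_of_tendsto' hω fun n => WW_nonneg hA ν β r n ω
  have h9 : f ω = 0 := by
    have h10 := ENNReal.ofReal_eq_zero.1 h7
    have h11 := le_antisymm h10 (Real.sqrt_nonneg _)
    exact (Real.sqrt_eq_zero h8).1 h11
  rw [h9] at hω
  exact hω

end Pool.Agent.R784.PT
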