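import Pool.Agent.R784.PT.Defs

/-!
# Directed polymer on a Galton-Watson tree: part B

The return probabilities of the biased walk are not square summable if there are infinitely many
radii with at most linear volume.
-/

open MeasureTheory ProbabilityTheory Filter Topology
open FrogGW (Env InTree Survive GW lev vert)
open scoped ENNReal

namespace Pool.Agent.R784.PT

namespace PB

section Abs

variable {ι : Type*} (S : Finset ι) (c : ι → ι → ℝ) (p : ι → ℝ)

/-- The weighted inner product. -/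
noncomputable def ip (f g : ι → ℝ) : ℝ := ∑ x ∈ S, p x * (f x * g x)

/-- The operator with kernel `c x y / p x`. -/
noncomputable def TT (f : ι → ℝ) (x : ι) : ℝ := (∑ y ∈ S, c x y * f y) / p x

theorem ip_comm (f g : ι → ℝ) : ip S p f g = ip S p g f := by
  unfold ip
  exact Finset.sum_congr rfl fun x _ => by ring

theorem ip_TT (hp : ∀ x ∈ S, 0 < p x) (f g : ι → ℝ) :
    ip S p f (TT S c p g) = ∑ x ∈ S, ∑ y ∈ S, c x y * (f x * g y) := by
  unfold ip TT
  refine Finset.sum_congr rfl fun x hx => ?_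
  have h : p x ≠ 0 := (hp x hx).ne'
  have h1 : p x * (f x * ((∑ y ∈ S, c x y * g y) / p x)) = f x * ∑ y ∈ S, c x y * g y := by
    field_simp
  rw [h1, Finset.mul_sum]
  exact Finset.sum_congr rfl fun y _ => by ring

theorem ip_symm (hp : ∀ x ∈ S, 0 < p x) (hc : ∀ x y, c x y = c y x) (f g : ι → ℝ) :
    ip S p (TT S c p f) g = ip S p f (TT S c p g) := by
  rw [ip_comm, ip_TT S c p hp, ip_TT S c p hp, Finset.sum_comm]
  refine Finset.sum_congr rfl fun x _ => Finset.sum_congr rfl fun y _ => ?_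
  rw [hc y x]; ring

theorem ip_nonneg (hp : ∀ x ∈ S, 0 < p x) (f : ι → ℝ) : 0 ≤ ip S p f f :=
  Finset.sum_nonneg fun x hx => mul_nonneg (hp x hx).le (mul_self_nonneg _)

/-- Twice the form is at most the sum of squares. -/
theorem two_ip_le (hp : ∀ x ∈ S, 0 < p x) (hc : ∀ x y, c x y = c y x)
    (hc0 : ∀ x y, 0 ≤ c x y) (hcp : ∀ x ∈ S, ∑ y ∈ S, c x y ≤ p x) (f g : ι → ℝ) :
    2 * ip S p f (TT S c p g) ≤ ip S p f f + ip S p g g := by
  rw [ip_TT S c p hp, Finset.mul_sum]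
  have h1 : ∑ x ∈ S, 2 * ∑ y ∈ S, c x y * (f x * g y) ≤
      ∑ x ∈ S, ∑ y ∈ S, (c x y * f x ^ 2 + c x y * g y ^ 2) := by
    refine Finset.sum_le_sum fun x _ => ?_
    rw [Finset.mul_sum]
    refine Finset.sum_le_sum fun y _ => ?_
    nlinarith [mul_nonneg (hc0 x y) (sq_nonneg (f x - g y))]
  refine h1.trans ?_
  have h2 : ∑ x ∈ S, ∑ y ∈ S, (c x y * f x ^ 2 + c x y * g y ^ 2) =
      (∑ x ∈ S, (∑ y ∈ S, c x y) * f x ^ 2) + ∑ x ∈ S, (∑ y ∈ S, c x y) * g x ^ 2 := by
    simp_rw [Finset.sum_add_distrib]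
    congr 1
    · exact Finset.sum_congr rfl fun x _ => by rw [Finset.sum_mul]
    · rw [Finset.sum_comm]
      refine Finset.sum_congr rfl fun x _ => ?_
      rw [Finset.sum_mul]
      exact Finset.sum_congr rfl fun y _ => by rw [hc y x]
  rw [h2]
  unfold ip
  refine add_le_add (Finset.sum_le_sum fun x hx => ?_) (Finset.sum_le_sum fun x hx => ?_)
  · have := mul_le_mul_of_nonneg_right (hcp x hx) (sq_nonneg (f x))
    linarith [this, sq (f x)]
  · have := mul_le_mul_of_nonneg_right (hcp x hx) (sq_nonneg (g x))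
    linarith [this, sq (g x)]

theorem ip_TT_le (hp : ∀ x ∈ S, 0 < p x) (hc : ∀ x y, c x y = c y x)
    (hc0 : ∀ x y, 0 ≤ c x y) (hcp : ∀ x ∈ S, ∑ y ∈ S, c x y ≤ p x) (f : ι → ℝ) :
    ip S p (TT S c p f) (TT S c p f) ≤ ip S p f f := by
  have := two_ip_le S c p hp hc hc0 hcp (TT S c p f) f
  linarith

theorem disc {a b d : ℝ} (ha : 0 ≤ a) (h : ∀ t : ℝ, 0 ≤ a + 2 * t * b + t ^ 2 * d) :
    b ≤ √a * √d := by
  have h1 := discrim_le_zero (a := d) (b := 2 * b) (c := a) (fun t => by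
    have := h t; nlinarith)
  unfold discrim at h1
  rw [← Real.sqrt_mul ha]
  refine Real.le_sqrt_of_sq_le ?_
  nlinarith

theorem ip_add_smul (f g : ι → ℝ) (t : ℝ) :
    ip S p (fun x => f x + t * g x) (fun x => f x + t * g x) =
      ip S p f f + 2 * t * ip S p f g + t ^ 2 * ip S p g g := by
  unfold ip
  rw [Finset.mul_sum, Finset.mul_sum, ← Finset.sum_add_distrib, ← Finset.sum_add_distrib]
  exact Finset.sum_congr rfl fun x _ => by ring

theorem TT_add_smul (f g : ι → ℝ) (t : ℝ) :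
    TT S c p (fun x => f x + t * g x) = fun x => TT S c p f x + t * TT S c p g x := by
  funext x
  unfold TT
  rw [mul_div_assoc', ← add_div, Finset.mul_sum, ← Finset.sum_add_distrib]
  congr 1
  exact Finset.sum_congr rfl fun y _ => by ring

theorem ip_cs (hp : ∀ x ∈ S, 0 < p x) (f g : ι → ℝ) :
    ip S p f g ≤ √(ip S p f f) * √(ip S p g g) := by
  refine disc (ip_nonneg S p hp f) fun t => ?_
  rw [← ip_add_smul]
  exact ip_nonneg S p hp _

theorem B_cs (hp : ∀ x ∈ S, 0 < p x) (hc : ∀ x y, c x y = c y x)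
    (hc0 : ∀ x y, 0 ≤ c x y) (hcp : ∀ x ∈ S, ∑ y ∈ S, c x y ≤ p x) (f g : ι → ℝ) :
    ip S p f g - ip S p (TT S c p f) (TT S c p g) ≤
      √(ip S p f f - ip S p (TT S c p f) (TT S c p f)) *
      √(ip S p g g - ip S p (TT S c p g) (TT S c p g)) := by
  refine disc ?_ fun t => ?_
  · have := ip_TT_le S c p hp hc hc0 hcp f
    linarith
  · have h1 := ip_TT_le S c p hp hc hc0 hcp (fun x => f x + t * g x)
    rw [TT_add_smul, ip_add_smul, ip_add_smul] at h1
    nlinarith

/-- The form of `I - T ^ 2` is at most twice the form of `I - T`. -/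
theorem B_le (hp : ∀ x ∈ S, 0 < p x) (f : ι → ℝ) :
    ip S p f f - ip S p (TT S c p f) (TT S c p f) ≤
      2 * (ip S p f f - ip S p f (TT S c p f)) := by
  have h := ip_nonneg S p hp (fun x => f x + (-1) * TT S c p f x)
  rw [ip_add_smul] at h
  nlinarith

theorem iter_ip (hp : ∀ x ∈ S, 0 < p x) (hc : ∀ x y, c x y = c y x) (f g : ι → ℝ) :
    ∀ j, ip S p ((TT S c p)^[j] f) g = ip S p f ((TT S c p)^[j] g) := by
  intro j
  induction j generalizing f with
  | zero => rfl
  | succ j ih =>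
    rw [Function.iterate_succ_apply, ih, ip_symm S c p hp hc, Function.iterate_succ_apply']

/-- The basic inequality. -/
theorem main_abs (hp : ∀ x ∈ S, 0 < p x) (hc : ∀ x y, c x y = c y x)
    (hc0 : ∀ x y, 0 ≤ c x y) (hcp : ∀ x ∈ S, ∑ y ∈ S, c x y ≤ p x) (f φ : ι → ℝ) (D : ℝ)
    (hD : 2 * (ip S p φ φ - ip S p φ (TT S c p φ)) ≤ D) (n : ℕ) :
    ip S p f φ ≤ √(ip S p ((TT S c p)^[2 * n] f) ((TT S c p)^[2 * n] f)) * √(ip S p φ φ) +
      √D * ∑ k ∈ Finset.range n,
        √(ip S p ((TT S c p)^[2 * k] f) ((TT S c p)^[2 * k] f) -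
          ip S p ((TT S c p)^[2 * (k + 1)] f) ((TT S c p)^[2 * (k + 1)] f)) := by
  have hstep : ∀ k, ip S p ((TT S c p)^[2 * k] f) φ ≤
      ip S p ((TT S c p)^[2 * (k + 1)] f) φ +
      √D * √(ip S p ((TT S c p)^[2 * k] f) ((TT S c p)^[2 * k] f) -
          ip S p ((TT S c p)^[2 * (k + 1)] f) ((TT S c p)^[2 * (k + 1)] f)) := by
    intro k
    have e : (TT S c p)^[2 * (k + 1)] f = TT S c p (TT S c p ((TT S c p)^[2 * k] f)) := by
      rw [show 2 * (k + 1) = 2 * k + 1 + 1 by ring, Function.iterate_succ_apply',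
        Function.iterate_succ_apply']
    rw [e]
    set h := (TT S c p)^[2 * k] f
    have h1 := B_cs S c p hp hc hc0 hcp h φ
    have h2 : ip S p (TT S c p (TT S c p h)) φ = ip S p (TT S c p h) (TT S c p φ) :=
      ip_symm S c p hp hc _ _
    have h3 := ip_TT_le S c p hp hc hc0 hcp (TT S c p h)
    have h4 : √(ip S p h h - ip S p (TT S c p h) (TT S c p h)) ≤
        √(ip S p h h - ip S p (TT S c p (TT S c p h)) (TT S c p (TT S c p h))) :=
      Real.sqrt_le_sqrt (by linarith)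
    have h5 : √(ip S p φ φ - ip S p (TT S c p φ) (TT S c p φ)) ≤ √D :=
      Real.sqrt_le_sqrt ((B_le S c p hp φ).trans hD)
    have h6 := mul_le_mul h4 h5 (Real.sqrt_nonneg _) (Real.sqrt_nonneg _)
    rw [h2, mul_comm (√D)]
    linarith
  have htel : ∀ n, ip S p f φ ≤ ip S p ((TT S c p)^[2 * n] f) φ +
      √D * ∑ k ∈ Finset.range n,
        √(ip S p ((TT S c p)^[2 * k] f) ((TT S c p)^[2 * k] f) -
          ip S p ((TT S c p)^[2 * (k + 1)] f) ((TT S c p)^[2 * (k + 1)] f)) := by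
    intro n
    induction n with
    | zero => simp
    | succ n ih =>
      rw [Finset.sum_range_succ, mul_add (√D)]
      linarith [hstep n]
  refine (htel n).trans ?_
  have := ip_cs S p hp ((TT S c p)^[2 * n] f) φ
  linarith

end Abs

/-! ## Sequences -/

theorem rec_tendsto {s e : ℕ → ℝ} (hs : ∀ j, 0 ≤ s j) (he : Tendsto e atTop (𝓝 0))
    (h : ∀ j, s (j + 1) ≤ s j / 2 + e j) : Tendsto s atTop (𝓝 0) := by
  rw [Metric.tendsto_atTop]
  intro ε hε
  obtain ⟨J, hJ⟩ := (Metric.tendsto_atTop.1 he) (ε / 4) (by positivity)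
  have h1 : ∀ i, s (J + i) ≤ (1 / 2) ^ i * s J + ε / 2 := by
    intro i
    induction i with
    | zero => simp; linarith
    | succ i ih =>
      have h2 := h (J + i)
      have h3 := hJ (J + i) (by omega)
      rw [Real.dist_eq, sub_zero] at h3
      have h4 := (abs_lt.1 h3).2
      rw [← add_assoc, pow_succ]
      linarith
  have h5 : Tendsto (fun i : ℕ => (1 / 2 : ℝ) ^ i * s J) atTop (𝓝 (0 * s J)) :=
    (tendsto_pow_atTop_nhds_zero_of_lt_one (by norm_num) (by norm_num)).mul_const _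
  rw [zero_mul] at h5
  obtain ⟨I, hI⟩ := (Metric.tendsto_atTop.1 h5) (ε / 2) (by positivity)
  refine ⟨J + I, fun n hn => ?_⟩
  obtain ⟨i, rfl⟩ := Nat.exists_eq_add_of_le (le_of_add_le_left hn : J ≤ n)
  have h6 := hI i (by omega)
  rw [Real.dist_eq, sub_zero] at h6
  have h7 := (abs_lt.1 h6).2
  rw [Real.dist_eq, sub_zero, abs_of_nonneg (hs _)]
  linarith [h1 i]

theorem seq_t {A : ℕ → ℝ} (hA : Antitone A) (hA0 : ∀ k, 0 ≤ A k)
    (hs : Summable fun k => A k ^ 2) :
    Tendsto (fun j : ℕ => 4 ^ j * A (16 ^ j)) atTop (𝓝 0) := by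
  have h1 := (summable_condensed_iff_of_nonneg (f := fun k => A k ^ 2)
    (fun k => sq_nonneg _) (fun {a b} _ hab => pow_le_pow_left₀ (hA0 _) (hA hab) 2)).2 hs
  have h2 := h1.tendsto_atTop_zero
  have h3 : Tendsto (fun j : ℕ => 4 * j) atTop atTop :=
    tendsto_id.const_mul_atTop' (by norm_num)
  have h4 := h2.comp h3
  have h5 : Tendsto (fun j : ℕ => (4 ^ j * A (16 ^ j)) ^ 2) atTop (𝓝 0) := by
    refine h4.congr fun j => ?_
    simp only [Function.comp]
    rw [show (2 : ℕ) ^ (4 * j) = 16 ^ j by rw [pow_mul]; norm_num,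
      show (2 : ℝ) ^ (4 * j) = 16 ^ j by rw [pow_mul]; norm_num, mul_pow, ← pow_mul, mul_comm j 2,
      pow_mul]
    norm_num
  have h6 := h5.sqrt
  rw [Real.sqrt_zero] at h6
  refine h6.congr fun j => ?_
  rw [Real.sqrt_sq (by have := hA0 (16 ^ j); positivity)]

theorem seq_S {A : ℕ → ℝ} (hA : Antitone A) (hA0 : ∀ k, 0 ≤ A k) (N n : ℕ) (h : N ≤ n) :
    ∑ k ∈ Finset.range n, √(A k - A (k + 1)) ≤
      ∑ k ∈ Finset.range N, √(A k - A (k + 1)) + √(n * A N) := by
  rw [← Finset.sum_range_add_sum_Ico _ h]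
  have h1 : (∑ k ∈ Finset.Ico N n, √(A k - A (k + 1))) ^ 2 ≤ n * A N := by
    have h2 := Finset.sum_mul_sq_le_sq_mul_sq (Finset.Ico N n) (fun _ => (1 : ℝ))
      (fun k => √(A k - A (k + 1)))
    simp only [one_mul, one_pow, Finset.sum_const, Nat.card_Ico, nsmul_eq_mul, mul_one] at h2
    have h3 : ∑ k ∈ Finset.Ico N n, √(A k - A (k + 1)) ^ 2 = A N - A n := by
      rw [Finset.sum_congr rfl fun k _ => Real.sq_sqrt (sub_nonneg.2 (hA (Nat.le_succ k))),
        Finset.sum_Ico_eq_sum_range]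
      have h4 := Finset.sum_range_sub' (fun i => A (N + i)) (n - N)
      simp only [add_zero, Nat.add_sub_cancel' h] at h4
      rw [← h4]
      rfl
    rw [h3] at h2
    refine h2.trans ?_
    have h5 := hA0 n
    have h6 := hA h
    have h7 : ((n - N : ℕ) : ℝ) ≤ n := by exact_mod_cast Nat.sub_le n N
    exact mul_le_mul h7 (by linarith) (by linarith) (by positivity)
  have := Real.le_sqrt_of_sq_le h1
  linarith

theorem seq_s {A : ℕ → ℝ} (hA : Antitone A) (hA0 : ∀ k, 0 ≤ A k)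
    (hs : Summable fun k => A k ^ 2) :
    Tendsto (fun j : ℕ => (∑ k ∈ Finset.range (16 ^ j), √(A k - A (k + 1))) / 2 ^ j)
      atTop (𝓝 0) := by
  refine rec_tendsto (e := fun j => 2 * √(4 ^ j * A (16 ^ j)))
    (fun j => div_nonneg (Finset.sum_nonneg fun _ _ => Real.sqrt_nonneg _) (by positivity))
    ?_ fun j => ?_
  · have := ((seq_t hA hA0 hs).sqrt).const_mul 2
    rwa [Real.sqrt_zero, mul_zero] at this
  · have h1 := seq_S hA hA0 (16 ^ j) (16 ^ (j + 1)) (Nat.pow_le_pow_right (by norm_num) (by omega))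
    have h2 : √(((16 ^ (j + 1) : ℕ) : ℝ) * A (16 ^ j)) = 4 * 2 ^ j * √(4 ^ j * A (16 ^ j)) := by
      rw [← Real.sqrt_sq (show (0 : ℝ) ≤ 4 * 2 ^ j by positivity), ← Real.sqrt_mul (by positivity)]
      congr 1
      push_cast
      rw [show (16 : ℝ) = 4 * 4 by norm_num, show (4 : ℝ) ^ j = 2 ^ j * 2 ^ j by
        rw [← mul_pow]; norm_num, mul_pow, mul_pow]
      rw [show (4 : ℝ) ^ (j + 1) = 4 * (2 ^ j * 2 ^ j) by
        rw [pow_succ, ← mul_pow]; norm_num; ring]
      ring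
    rw [h2] at h1
    rw [pow_succ (2 : ℝ) j]
    have h3 : (0 : ℝ) < 2 ^ j := by positivity
    rw [div_le_iff₀ (by positivity)]
    have h4 : ((∑ k ∈ Finset.range (16 ^ j), √(A k - A (k + 1))) / 2 ^ j / 2 +
        2 * √(4 ^ j * A (16 ^ j))) * (2 ^ j * 2) =
        (∑ k ∈ Finset.range (16 ^ j), √(A k - A (k + 1))) +
          4 * 2 ^ j * √(4 ^ j * A (16 ^ j)) := by
      field_simp
      ring
    rw [h4]
    exact h1

/-- The two bounds cannot hold for infinitely many radii. -/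
theorem seq_main {A : ℕ → ℝ} (hA : Antitone A) (hA0 : ∀ k, 0 ≤ A k)
    (hs : Summable fun k => A k ^ 2) (C a : ℝ) (hC : 0 ≤ C) (ha : 0 < a) :
    ∀ᶠ R : ℕ in atTop, ∃ n : ℕ, √(A n) * √((R : ℝ) ^ 2 * (C * R)) +
      √(2 * (C * R)) * ∑ k ∈ Finset.range n, √(A k - A (k + 1)) < a * R := by
  have ht := ((seq_t hA hA0 hs).sqrt).const_mul (√(4 * C))
  have hss := (seq_s hA hA0 hs).const_mul (√(2 * C) * 2)
  rw [Real.sqrt_zero, mul_zero] at ht
  rw [mul_zero] at hss
  have hsum := ht.add hss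
  rw [add_zero] at hsum
  have hev := hsum.eventually (gt_mem_nhds ha)
  obtain ⟨J, hJ⟩ := eventually_atTop.1 hev
  filter_upwards [eventually_ge_atTop (4 ^ J)] with R hR
  have hR0 : 0 < R := lt_of_lt_of_le (by positivity) hR
  set j := Nat.log 4 R with hj
  have hjJ : J ≤ j := by
    rw [hj]
    exact Nat.le_log_of_pow_le (by norm_num) hR
  have h1 : 4 ^ j ≤ R := Nat.pow_log_le_self 4 hR0.ne'
  have h2 : R < 4 ^ (j + 1) := Nat.lt_pow_succ_log_self (by norm_num) R
  refine ⟨16 ^ j, ?_⟩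
  have h3 := hJ j hjJ
  set n := 16 ^ j with hn
  have hRr : (0 : ℝ) < R := by exact_mod_cast hR0
  have h2' : (R : ℝ) ≤ 4 * 4 ^ j := by
    have : (R : ℝ) ≤ ((4 ^ (j + 1) : ℕ) : ℝ) := by exact_mod_cast h2.le
    push_cast at this
    rw [pow_succ] at this
    linarith
  have h1' : (4 : ℝ) ^ j ≤ R := by exact_mod_cast h1
  have e1 : √(A n) * √((R : ℝ) ^ 2 * (C * R)) ≤ R * (√(4 * C) * √(4 ^ j * A n)) := by
    rw [← Real.sqrt_mul (hA0 _), ← Real.sqrt_mul (by positivity)]
    nth_rewrite 3 [← Real.sqrt_sq hRr.le]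
    rw [← Real.sqrt_mul (by positivity)]
    refine Real.sqrt_le_sqrt ?_
    have : 0 ≤ A n * (R : ℝ) ^ 2 * C := mul_nonneg (mul_nonneg (hA0 _) (by positivity)) hC
    nlinarith [mul_le_mul_of_nonneg_left h2' this]
  have e2 : √(2 * (C * R)) * ∑ k ∈ Finset.range n, √(A k - A (k + 1)) ≤
      R * (√(2 * C) * 2 * ((∑ k ∈ Finset.range n, √(A k - A (k + 1))) / 2 ^ j)) := by
    set sm := ∑ k ∈ Finset.range n, √(A k - A (k + 1)) with hsm
    have hS : 0 ≤ sm := Finset.sum_nonneg fun _ _ => Real.sqrt_nonneg _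
    have hq : (2 : ℝ) ^ j ≤ √R := by
      refine Real.le_sqrt_of_sq_le ?_
      rw [← pow_mul, mul_comm j 2, pow_mul]
      norm_num
      exact h1'
    have hq0 : (0 : ℝ) < 2 ^ j := by positivity
    have hq1 : √(R : ℝ) ≤ R / 2 ^ j := by
      rw [le_div_iff₀ hq0]
      calc √(R : ℝ) * 2 ^ j ≤ √R * √R := mul_le_mul_of_nonneg_left hq (Real.sqrt_nonneg _)
        _ = R := Real.mul_self_sqrt hRr.le
    rw [show 2 * (C * (R : ℝ)) = 2 * C * R by ring, Real.sqrt_mul (by positivity)]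
    have h6 : √(2 * C) * √(R : ℝ) * sm ≤ √(2 * C) * (R / 2 ^ j) * sm :=
      mul_le_mul_of_nonneg_right (mul_le_mul_of_nonneg_left hq1 (Real.sqrt_nonneg _)) hS
    have h7 : R * (√(2 * C) * 2 * (sm / 2 ^ j)) = 2 * (√(2 * C) * (R / 2 ^ j) * sm) := by
      field_simp
    have h8 : 0 ≤ √(2 * C) * (R / 2 ^ j) * sm := by positivity
    linarith
  have h9 := mul_lt_mul_of_pos_right h3 hRr
  linarith

/-! ## The tree -/

theorem mem_lev {Z : Env} : ∀ {k : ℕ} {x : List ℕ}, x ∈ lev Z k ↔ InTree Z x ∧ x.length = k := by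
  intro k
  induction k with
  | zero =>
    intro x
    simp only [FrogGW.lev, Finset.mem_singleton, List.length_eq_zero_iff]
    constructor
    · rintro rfl; exact ⟨trivial, rfl⟩
    · exact fun h => h.2
  | succ k ih =>
    intro x
    simp only [FrogGW.lev, Finset.mem_biUnion, Finset.mem_image, Finset.mem_range]
    constructor
    · rintro ⟨u, hu, i, hi, rfl⟩
      obtain ⟨h1, h2⟩ := ih.1 hu
      exact ⟨⟨h1, hi⟩, by simp [h2]⟩
    · rintro ⟨h1, h2⟩
      cases x with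
      | nil => simp at h2
      | cons i u =>
        exact ⟨u, ih.2 ⟨h1.1, by simpa using h2⟩, i, h1.2, rfl⟩

/-- The ball. -/
noncomputable def ball (Z : Env) (K : ℕ) : Finset (List ℕ) := (Finset.range (K + 1)).biUnion (lev Z)

theorem mem_ball {Z : Env} {K : ℕ} {x : List ℕ} :
    x ∈ ball Z K ↔ InTree Z x ∧ x.length ≤ K := by
  unfold ball
  simp only [Finset.mem_biUnion, Finset.mem_range, mem_lev]
  constructor
  · rintro ⟨k, hk, h1, h2⟩; exact ⟨h1, by omega⟩
  · rintro ⟨h1, h2⟩; exact ⟨_, by omega, h1, rfl⟩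

theorem sum_ball {Z : Env} {K : ℕ} (F : List ℕ → ℝ) :
    ∑ x ∈ ball Z K, F x = ∑ k ∈ Finset.range (K + 1), ∑ x ∈ lev Z k, F x := by
  unfold ball
  rw [Finset.sum_biUnion]
  intro i _ j _ hij
  rw [Function.onFun, Finset.disjoint_left]
  intro x hx hx'
  exact hij ((mem_lev.1 hx).2.symm.trans (mem_lev.1 hx').2)

theorem card_lev_succ (Z : Env) (k : ℕ) : (lev Z (k + 1)).card = ∑ u ∈ lev Z k, Z u := by
  rw [FrogGW.lev, Finset.card_biUnion]
  · refine Finset.sum_congr rfl fun u _ => ?_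
    rw [Finset.card_image_of_injective, Finset.card_range]
    intro a b h
    exact (List.cons.inj h).1
  · intro u _ v _ huv
    rw [Function.onFun, Finset.disjoint_left]
    intro x hx hx'
    obtain ⟨i, _, rfl⟩ := Finset.mem_image.1 hx
    obtain ⟨j, _, h⟩ := Finset.mem_image.1 hx'
    exact huv (List.cons.inj h).2.symm

/-- The parent of a word is `x` and the word is a child of `x`. -/
def Par (Z : Env) (x y : List ℕ) : Prop := ∃ i, i < Z x ∧ y = i :: x

open Classical in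
/-- The conductances. -/
noncomputable def cc (m : ℝ) (Z : Env) (x y : List ℕ) : ℝ :=
  (if Par Z x y then (m ^ x.length)⁻¹ else 0) + (if Par Z y x then (m ^ y.length)⁻¹ else 0)

/-- The reversible measure. -/
noncomputable def pp (m : ℝ) (Z : Env) : List ℕ → ℝ
  | [] => Z []
  | i :: v => (m ^ (v.length + 1))⁻¹ * (m + Z (i :: v))

/-- The part of the sum that comes from the parent. -/
noncomputable def up (m : ℝ) (f : List ℕ → ℝ) : List ℕ → ℝ
  | [] => 0
  | _ :: v => (m ^ v.length)⁻¹ * f v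

theorem cc_symm (m : ℝ) (Z : Env) (x y : List ℕ) : cc m Z x y = cc m Z y x := by
  unfold cc; rw [add_comm]

theorem cc_nonneg {m : ℝ} (hm : 0 < m) (Z : Env) (x y : List ℕ) : 0 ≤ cc m Z x y := by
  unfold cc
  refine add_nonneg ?_ ?_ <;> split_ifs <;> positivity

theorem sum_cc (m : ℝ) (Z : Env) (K : ℕ) (f : List ℕ → ℝ) (x : List ℕ) (hx : x ∈ ball Z K) :
    ∑ y ∈ ball Z K, cc m Z x y * f y =
      (if x.length < K then (m ^ x.length)⁻¹ * ∑ i ∈ Finset.range (Z x), f (i :: x) else 0) +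
      up m f x := by
  classical
  obtain ⟨hx1, hx2⟩ := mem_ball.1 hx
  unfold cc
  simp_rw [add_mul, Finset.sum_add_distrib, ite_mul, zero_mul]
  congr 1
  · rw [← Finset.sum_filter]
    split_ifs with h
    · have : (ball Z K).filter (fun y => Par Z x y) =
          (Finset.range (Z x)).image (fun i => i :: x) := by
        ext y
        rw [Finset.mem_filter, Finset.mem_image, mem_ball]
        constructor
        · rintro ⟨_, i, hi, rfl⟩; exact ⟨i, Finset.mem_range.2 hi, rfl⟩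
        · rintro ⟨i, hi, rfl⟩
          exact ⟨⟨⟨hx1, Finset.mem_range.1 hi⟩, by simp; omega⟩, i, Finset.mem_range.1 hi, rfl⟩
      rw [this, Finset.sum_image (fun a _ b _ hab => (List.cons.inj hab).1), Finset.mul_sum]
    · rw [Finset.filter_eq_empty_iff.2, Finset.sum_empty]
      rintro y hy ⟨i, hi, rfl⟩
      have := (mem_ball.1 hy).2
      simp at this
      omega
  · rw [← Finset.sum_filter]
    cases x with
    | nil =>
      rw [Finset.filter_eq_empty_iff.2, Finset.sum_empty]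
      · rfl
      · rintro y _ ⟨i, _, h⟩
        simp at h
    | cons i v =>
      have : (ball Z K).filter (fun y => Par Z y (i :: v)) = {v} := by
        ext y
        rw [Finset.mem_filter, Finset.mem_singleton, mem_ball]
        constructor
        · rintro ⟨_, j, _, h⟩; exact (List.cons.inj h).2.symm
        · rintro rfl
          refine ⟨⟨hx1.1, ?_⟩, i, hx1.2, rfl⟩
          simp at hx2
          omega
      rw [this, Finset.sum_singleton]
      rfl

theorem pp_pos {m : ℝ} (hm : 0 < m) {Z : Env} (hZ : 1 ≤ Z []) (x : List ℕ) : 0 < pp m Z x := by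
  cases x with
  | nil => simp only [pp]; exact_mod_cast hZ
  | cons i v => simp only [pp]; positivity

/-- The full sum. -/
theorem pp_mul_stepE {m : ℝ} (hm : 0 < m) {Z : Env} (hZ : 1 ≤ Z []) (f : List ℕ → ℝ)
    (x : List ℕ) : pp m Z x * stepE m Z f x =
      (m ^ x.length)⁻¹ * ∑ i ∈ Finset.range (Z x), f (i :: x) + up m f x := by
  cases x with
  | nil =>
    have : (Z [] : ℝ) ≠ 0 := by
      have : (0 : ℝ) < Z [] := by exact_mod_cast hZ
      exact this.ne'
    simp only [pp, stepE, up, List.length_nil, pow_zero, inv_one, one_mul, add_zero]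
    field_simp
  | cons i v =>
    have h1 : m + (Z (i :: v) : ℝ) ≠ 0 := by positivity
    have h2 : (m ^ (v.length + 1))⁻¹ * m = (m ^ v.length)⁻¹ := by
      rw [pow_succ]; field_simp
    simp only [pp, stepE, up, List.length_cons]
    rw [← h2]
    field_simp
    ring

theorem TT_eq {m : ℝ} (hm : 0 < m) {Z : Env} (hZ : 1 ≤ Z []) (K : ℕ) (f : List ℕ → ℝ)
    (x : List ℕ) (hx : x ∈ ball Z K) (hf : ∀ y : List ℕ, K < y.length → f y = 0) :
    TT (ball Z K) (cc m Z) (pp m Z) f x = stepE m Z f x := by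
  have hp := pp_pos hm hZ x
  unfold TT
  rw [div_eq_iff hp.ne', sum_cc m Z K f x hx, mul_comm (stepE m Z f x), pp_mul_stepE hm hZ]
  congr 1
  split_ifs with h
  · rfl
  · rw [Finset.sum_eq_zero, mul_zero]
    intro i _
    exact hf _ (by simp; omega)

/-- The iterates. -/
noncomputable def gg (m : ℝ) (Z : Env) (n : ℕ) : List ℕ → ℝ :=
  (stepE m Z)^[n] (fun x => if x = [] then 1 else 0)

theorem gg_zero (m : ℝ) (Z : Env) : ∀ (n : ℕ) (x : List ℕ), n < x.length → gg m Z n x = 0 := by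
  intro n
  induction n with
  | zero =>
    intro x hx
    have : x ≠ [] := by rintro rfl; simp at hx
    simp [gg, this]
  | succ n ih =>
    intro x hx
    unfold gg
    rw [Function.iterate_succ_apply']
    change stepE m Z (gg m Z n) x = 0
    cases x with
    | nil => simp at hx
    | cons i v =>
      simp only [List.length_cons] at hx
      simp only [stepE]
      rw [ih v (by omega), Finset.sum_eq_zero fun j _ => ih _ (by simp; omega)]
      simp

theorem TT_congr {ι : Type*} (S : Finset ι) (c : ι → ι → ℝ) (p : ι → ℝ) {f g : ι → ℝ}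
    (h : ∀ x ∈ S, f x = g x) : TT S c p f = TT S c p g := by
  funext x
  unfold TT
  rw [Finset.sum_congr rfl fun y hy => by rw [h y hy]]

theorem iter_eq {m : ℝ} (hm : 0 < m) {Z : Env} (hZ : 1 ≤ Z []) (K : ℕ) :
    ∀ n, n ≤ K + 1 → ∀ x ∈ ball Z K,
      (TT (ball Z K) (cc m Z) (pp m Z))^[n] (fun x => if x = [] then 1 else 0) x =
        gg m Z n x := by
  intro n
  induction n with
  | zero => intro _ x _; rfl
  | succ n ih =>
    intro hn x hx
    rw [Function.iterate_succ_apply', TT_congr _ _ _ (ih (by omega)),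
      TT_eq hm hZ K _ x hx (fun y hy => gg_zero m Z n y (by omega))]
    unfold gg
    rw [Function.iterate_succ_apply']

theorem ip_root {m : ℝ} {Z : Env} (K : ℕ) (f : List ℕ → ℝ) :
    ip (ball Z K) (pp m Z) (fun x => if x = [] then 1 else 0) f = Z [] * f [] := by
  unfold ip
  rw [Finset.sum_eq_single []]
  · simp [pp]
  · intro x _ hx; simp [hx]
  · intro h
    exact (h (mem_ball.2 ⟨trivial, by simp⟩)).elim

/-- The energies. -/
noncomputable def AA (m : ℝ) (Z : Env) (k : ℕ) : ℝ := Z [] * ret m Z (4 * k)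

theorem ip_gg {m : ℝ} (hm : 0 < m) {Z : Env} (hZ : 1 ≤ Z []) (K k : ℕ) (hk : 4 * k ≤ K + 1) :
    ip (ball Z K) (pp m Z)
      ((TT (ball Z K) (cc m Z) (pp m Z))^[2 * k] (fun x => if x = [] then 1 else 0))
      ((TT (ball Z K) (cc m Z) (pp m Z))^[2 * k] (fun x => if x = [] then 1 else 0)) =
      AA m Z k := by
  rw [iter_ip (ball Z K) (cc m Z) (pp m Z) (fun x _ => pp_pos hm hZ x) (cc_symm m Z),
    ← Function.iterate_add_apply, ip_root,
    iter_eq hm hZ K _ (by omega) [] (mem_ball.2 ⟨(trivial : InTree Z []), by simp⟩)]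
  unfold AA ret
  rw [show 2 * k + 2 * k = 4 * k by ring]
  rfl

theorem sum_cc_le {m : ℝ} (hm : 0 < m) {Z : Env} (hZ : 1 ≤ Z []) (K : ℕ) (x : List ℕ)
    (hx : x ∈ ball Z K) : ∑ y ∈ ball Z K, cc m Z x y ≤ pp m Z x := by
  have h1 := sum_cc m Z K (fun _ => 1) x hx
  have h2 := pp_mul_stepE hm hZ (fun _ => 1) x
  simp only [mul_one] at h1
  rw [h1]
  have h3 : stepE m Z (fun _ => 1) x = 1 := by
    cases x with
    | nil =>
      have : (Z [] : ℝ) ≠ 0 := by
        have : (0 : ℝ) < Z [] := by exact_mod_cast hZ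
        exact this.ne'
      simp [stepE, this]
    | cons i v =>
      have h1 : m + (Z (i :: v) : ℝ) ≠ 0 := by positivity
      simp [stepE, h1]
  rw [h3, mul_one] at h2
  rw [h2]
  split_ifs
  · exact le_refl _
  · have : 0 ≤ (m ^ x.length)⁻¹ * ∑ i ∈ Finset.range (Z x), (1 : ℝ) := by positivity
    linarith

theorem sum_cc_eq {m : ℝ} (hm : 0 < m) {Z : Env} (hZ : 1 ≤ Z []) (K : ℕ) (x : List ℕ)
    (hx : x ∈ ball Z K) (hK : x.length < K) : ∑ y ∈ ball Z K, cc m Z x y = pp m Z x := by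
  have h1 := sum_cc m Z K (fun _ => 1) x hx
  have h2 := pp_mul_stepE hm hZ (fun _ => 1) x
  simp only [mul_one] at h1
  rw [h1]
  have h3 : stepE m Z (fun _ => 1) x = 1 := by
    cases x with
    | nil =>
      have : (Z [] : ℝ) ≠ 0 := by
        have : (0 : ℝ) < Z [] := by exact_mod_cast hZ
        exact this.ne'
      simp [stepE, this]
    | cons i v =>
      have h1 : m + (Z (i :: v) : ℝ) ≠ 0 := by positivity
      simp [stepE, h1]
  rw [h3, mul_one] at h2
  rw [h2, if_pos hK]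

/-- The test function. -/
noncomputable def ph (R : ℕ) (x : List ℕ) : ℝ := max ((R : ℝ) - x.length) 0

/-- The indicator of the ball of radius less than `R`. -/
noncomputable def ch (R : ℕ) (x : List ℕ) : ℝ := if x.length < R then 1 else 0

theorem ph_zero {R : ℕ} {x : List ℕ} (h : R ≤ x.length) : ph R x = 0 := by
  have : (R : ℝ) ≤ x.length := by exact_mod_cast h
  unfold ph
  exact max_eq_right (by linarith)

theorem ph_sq_le (R : ℕ) (x : List ℕ) : ph R x ^ 2 ≤ (R : ℝ) ^ 2 * ch R x := by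
  unfold ch
  split_ifs with h
  · rw [mul_one]
    refine pow_le_pow_left₀ (le_max_right _ _) ?_ 2
    exact max_le (by linarith [(Nat.cast_nonneg x.length : (0 : ℝ) ≤ _)]) (Nat.cast_nonneg R)
  · rw [ph_zero (by omega)]; simp

theorem ph_diff_le (R : ℕ) (x : List ℕ) (i : ℕ) :
    (ph R x - ph R (i :: x)) ^ 2 ≤ ch R x := by
  unfold ch
  split_ifs with h
  · have h1 : |ph R x - ph R (i :: x)| ≤ 1 := by
      unfold ph
      refine (abs_max_sub_max_le_max _ _ _ _).trans ?_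
      simp
    calc _ = |ph R x - ph R (i :: x)| ^ 2 := (sq_abs _).symm
      _ ≤ 1 ^ 2 := pow_le_pow_left₀ (abs_nonneg _) h1 2
      _ = 1 := one_pow 2
  · rw [ph_zero (by omega), ph_zero (by simp; omega)]; simp

theorem ch_nonneg (R : ℕ) (x : List ℕ) : 0 ≤ ch R x := by
  unfold ch; split_ifs <;> norm_num

theorem cc_diff_le {m : ℝ} (hm : 0 < m) (Z : Env) (R : ℕ) (x y : List ℕ) :
    cc m Z x y * (ph R x - ph R y) ^ 2 ≤ cc m Z x y * (ch R x + ch R y) := by
  by_cases h1 : Par Z x y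
  · obtain ⟨i, hi, rfl⟩ := h1
    refine mul_le_mul_of_nonneg_left ?_ (cc_nonneg hm Z _ _)
    linarith [ph_diff_le R x i, ch_nonneg R (i :: x)]
  · by_cases h2 : Par Z y x
    · obtain ⟨i, hi, rfl⟩ := h2
      refine mul_le_mul_of_nonneg_left ?_ (cc_nonneg hm Z _ _)
      have := ph_diff_le R y i
      have h3 : (ph R (i :: y) - ph R y) ^ 2 = (ph R y - ph R (i :: y)) ^ 2 := by ring
      rw [h3]
      linarith [ch_nonneg R (i :: y)]
    · unfold cc
      rw [if_neg h1, if_neg h2]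
      simp

/-- The energy of the test function. -/
theorem energy {m : ℝ} (hm : 0 < m) {Z : Env} (hZ : 1 ≤ Z []) (K R : ℕ) (hR : R ≤ K) :
    2 * (ip (ball Z K) (pp m Z) (ph R) (ph R) -
      ip (ball Z K) (pp m Z) (ph R) (TT (ball Z K) (cc m Z) (pp m Z) (ph R))) ≤
      2 * ∑ x ∈ ball Z K, ch R x * pp m Z x := by
  set S := ball Z K with hS
  rw [ip_TT S (cc m Z) (pp m Z) (fun x _ => pp_pos hm hZ x)]
  have h1 : ip S (pp m Z) (ph R) (ph R) = ∑ x ∈ S, (∑ y ∈ S, cc m Z x y) * ph R x ^ 2 := by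
    unfold ip
    refine Finset.sum_congr rfl fun x hx => ?_
    by_cases h : x.length < K
    · rw [sum_cc_eq hm hZ K x hx h, sq]
    · rw [ph_zero (by omega)]; simp
  have h2 : ∑ x ∈ S, (∑ y ∈ S, cc m Z x y) * ph R x ^ 2 =
      ∑ x ∈ S, ∑ y ∈ S, cc m Z x y * ph R x ^ 2 :=
    Finset.sum_congr rfl fun x _ => by rw [Finset.sum_mul]
  have h3 : ∑ x ∈ S, ∑ y ∈ S, cc m Z x y * ph R x ^ 2 =
      ∑ x ∈ S, ∑ y ∈ S, cc m Z x y * ph R y ^ 2 := by
    rw [Finset.sum_comm]
    exact Finset.sum_congr rfl fun x _ => Finset.sum_congr rfl fun y _ => by rw [cc_symm m Z y x]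
  have h4 : 2 * (ip S (pp m Z) (ph R) (ph R) -
      ∑ x ∈ S, ∑ y ∈ S, cc m Z x y * (ph R x * ph R y)) =
      ∑ x ∈ S, ∑ y ∈ S, cc m Z x y * (ph R x - ph R y) ^ 2 := by
    have h5 : ∑ x ∈ S, ∑ y ∈ S, cc m Z x y * (ph R x - ph R y) ^ 2 =
        ∑ x ∈ S, ∑ y ∈ S, cc m Z x y * ph R x ^ 2 + ∑ x ∈ S, ∑ y ∈ S, cc m Z x y * ph R y ^ 2 -
        2 * ∑ x ∈ S, ∑ y ∈ S, cc m Z x y * (ph R x * ph R y) := by
      rw [Finset.mul_sum, ← Finset.sum_add_distrib, ← Finset.sum_sub_distrib]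
      refine Finset.sum_congr rfl fun x _ => ?_
      rw [Finset.mul_sum, ← Finset.sum_add_distrib, ← Finset.sum_sub_distrib]
      exact Finset.sum_congr rfl fun y _ => by ring
    rw [h5, ← h3, ← h2, ← h1]
    ring
  rw [h4]
  have h6 : ∑ x ∈ S, ∑ y ∈ S, cc m Z x y * (ph R x - ph R y) ^ 2 ≤
      ∑ x ∈ S, ∑ y ∈ S, cc m Z x y * (ch R x + ch R y) :=
    Finset.sum_le_sum fun x _ => Finset.sum_le_sum fun y _ => cc_diff_le hm Z R x y
  refine h6.trans ?_
  have h7 : ∑ x ∈ S, ∑ y ∈ S, cc m Z x y * (ch R x + ch R y) =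
      2 * ∑ x ∈ S, ch R x * ∑ y ∈ S, cc m Z x y := by
    have h8 : ∑ x ∈ S, ∑ y ∈ S, cc m Z x y * (ch R x + ch R y) =
        ∑ x ∈ S, ∑ y ∈ S, cc m Z x y * ch R x + ∑ x ∈ S, ∑ y ∈ S, cc m Z x y * ch R y := by
      simp_rw [mul_add, Finset.sum_add_distrib]
    have h9 : ∑ x ∈ S, ∑ y ∈ S, cc m Z x y * ch R y = ∑ x ∈ S, ∑ y ∈ S, cc m Z x y * ch R x := by
      rw [Finset.sum_comm]
      exact Finset.sum_congr rfl fun x _ => Finset.sum_congr rfl fun y _ => by
        rw [cc_symm m Z y x]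
    have h10 : ∑ x ∈ S, ∑ y ∈ S, cc m Z x y * ch R x =
        ∑ x ∈ S, ch R x * ∑ y ∈ S, cc m Z x y :=
      Finset.sum_congr rfl fun x _ => by
        rw [Finset.mul_sum]
        exact Finset.sum_congr rfl fun y _ => mul_comm _ _
    rw [h8, h9, h10]; ring
  rw [h7]
  refine mul_le_mul_of_nonneg_left (Finset.sum_le_sum fun x hx => ?_) (by norm_num)
  exact mul_le_mul_of_nonneg_left (sum_cc_le hm hZ K x hx) (ch_nonneg R x)

theorem norm_ph {m : ℝ} (hm : 0 < m) {Z : Env} (hZ : 1 ≤ Z []) (K R : ℕ) :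
    ip (ball Z K) (pp m Z) (ph R) (ph R) ≤
      (R : ℝ) ^ 2 * ∑ x ∈ ball Z K, ch R x * pp m Z x := by
  unfold ip
  rw [Finset.mul_sum]
  refine Finset.sum_le_sum fun x _ => ?_
  have := mul_le_mul_of_nonneg_left (ph_sq_le R x) (pp_pos hm hZ x).le
  nlinarith

theorem volume {m : ℝ} (hm : 1 < m) {Z : Env} (K R : ℕ) (hR : R ≤ K) :
    ∑ x ∈ ball Z K, ch R x * pp m Z x ≤
      2 * m * ∑ k ∈ Finset.range (R + 2), ((lev Z k).card : ℝ) / m ^ k := by
  have hm0 : 0 < m := by linarith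
  rw [sum_ball]
  have h1 : ∀ k, ∑ x ∈ lev Z k, ch R x * pp m Z x ≤
      if k < R then m * (((lev Z k).card : ℝ) / m ^ k) +
        m * (((lev Z (k + 1)).card : ℝ) / m ^ (k + 1)) else 0 := by
    intro k
    split_ifs with hk
    · have h2 : ∑ x ∈ lev Z k, ch R x * pp m Z x ≤
          ∑ x ∈ lev Z k, (m ^ k)⁻¹ * (m + Z x) := by
        refine Finset.sum_le_sum fun x hx => ?_
        have hl := (mem_lev.1 hx).2
        unfold ch
        rw [if_pos (by omega), one_mul]
        cases x with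
        | nil =>
          simp only [List.length_nil] at hl
          subst hl
          simp only [pp, pow_zero, inv_one, one_mul]
          linarith
        | cons i v =>
          simp only [List.length_cons] at hl
          simp only [pp, ← hl]
          exact le_refl _
      refine h2.trans (le_of_eq ?_)
      rw [← Finset.mul_sum, Finset.sum_add_distrib, Finset.sum_const, nsmul_eq_mul,
        card_lev_succ]
      push_cast
      rw [pow_succ]
      field_simp
    · rw [Finset.sum_eq_zero]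
      intro x hx
      have hl := (mem_lev.1 hx).2
      unfold ch
      rw [if_neg (by omega), zero_mul]
  refine (Finset.sum_le_sum fun k _ => h1 k).trans ?_
  rw [← Finset.sum_filter]
  have h3 : (Finset.range (K + 1)).filter (fun k => k < R) = Finset.range R := by
    ext k; simp; omega
  rw [h3, Finset.sum_add_distrib, ← Finset.mul_sum, ← Finset.mul_sum]
  have h4 : ∑ k ∈ Finset.range R, ((lev Z k).card : ℝ) / m ^ k ≤
      ∑ k ∈ Finset.range (R + 2), ((lev Z k).card : ℝ) / m ^ k := by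
    refine Finset.sum_le_sum_of_subset_of_nonneg (fun k hk => ?_) fun k _ _ => by positivity
    rw [Finset.mem_range] at hk ⊢
    omega
  have h5 : ∑ k ∈ Finset.range R, ((lev Z (k + 1)).card : ℝ) / m ^ (k + 1) ≤
      ∑ k ∈ Finset.range (R + 2), ((lev Z k).card : ℝ) / m ^ k := by
    rw [Finset.sum_range_succ', Finset.sum_range_succ]
    have : 0 ≤ ((lev Z (R + 1)).card : ℝ) / m ^ (R + 1) := by positivity
    have : 0 ≤ ((lev Z 0).card : ℝ) / m ^ 0 := by positivity
    linarith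
  nlinarith

theorem AA_nonneg {m : ℝ} (hm : 0 < m) {Z : Env} (hZ : 1 ≤ Z []) (k : ℕ) : 0 ≤ AA m Z k := by
  rw [← ip_gg hm hZ (4 * k) k (by omega)]
  exact ip_nonneg _ _ (fun x _ => pp_pos hm hZ x) _

theorem AA_antitone {m : ℝ} (hm : 0 < m) {Z : Env} (hZ : 1 ≤ Z []) : Antitone (AA m Z) := by
  refine antitone_nat_of_succ_le fun k => ?_
  rw [← ip_gg hm hZ (4 * (k + 1)) k (by omega), ← ip_gg hm hZ (4 * (k + 1)) (k + 1) (by omega)]
  rw [show 2 * (k + 1) = 2 * k + 1 + 1 by ring, Function.iterate_succ_apply',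
    Function.iterate_succ_apply']
  have hp : ∀ x ∈ ball Z (4 * (k + 1)), 0 < pp m Z x := fun x _ => pp_pos hm hZ x
  exact (ip_TT_le _ _ _ hp (cc_symm m Z) (cc_nonneg hm Z) (sum_cc_le hm hZ _) _).trans
    (ip_TT_le _ _ _ hp (cc_symm m Z) (cc_nonneg hm Z) (sum_cc_le hm hZ _) _)

end PB

/-- Part B. -/
theorem b : S_B := by
  intro Z m hm hZ C hC hsum
  have hm0 : 0 < m := by linarith
  have hZr : (0 : ℝ) < Z [] := by exact_mod_cast hZ
  have hs : Summable fun k => PB.AA m Z k ^ 2 := by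
    have h1 : Summable fun k : ℕ => ret m Z (4 * k) ^ 2 :=
      hsum.comp_injective (i := fun k : ℕ => 4 * k) fun a b h => by
        simpa using h
    refine (h1.mul_left ((Z [] : ℝ) ^ 2)).congr fun k => ?_
    unfold PB.AA
    rw [mul_pow]
  have hev := PB.seq_main (PB.AA_antitone hm0 hZ) (PB.AA_nonneg hm0 hZ) hs
    (2 * m * max C 0) (Z []) (by positivity) hZr
  obtain ⟨R, hR, n, hn⟩ := (hC.and_eventually hev).exists
  have hR' : ∑ k ∈ Finset.range (R + 2), ((lev Z k).card : ℝ) / m ^ k ≤ max C 0 * R :=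
    hR.trans (mul_le_mul_of_nonneg_right (le_max_left _ _) (Nat.cast_nonneg R))
  set K := 4 * n + R + 4 with hK
  have hp : ∀ x ∈ PB.ball Z K, 0 < PB.pp m Z x := fun x _ => PB.pp_pos hm0 hZ x
  have hvol := PB.volume hm (Z := Z) K R (by omega)
  have hvol2 : ∑ x ∈ PB.ball Z K, PB.ch R x * PB.pp m Z x ≤ 2 * m * max C 0 * R := by
    refine hvol.trans ?_
    have := mul_le_mul_of_nonneg_left hR' (show (0 : ℝ) ≤ 2 * m by positivity)
    linarith
  have h1 := PB.main_abs (PB.ball Z K) (PB.cc m Z) (PB.pp m Z) hp (PB.cc_symm m Z)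
    (PB.cc_nonneg hm0 Z) (PB.sum_cc_le hm0 hZ K) (fun x => if x = [] then 1 else 0)
    (PB.ph R) (2 * (2 * m * max C 0 * R))
    ((PB.energy hm0 hZ K R (by omega)).trans (by linarith)) n
  rw [PB.ip_root, PB.ip_gg hm0 hZ K n (by omega)] at h1
  have h2 : ∑ k ∈ Finset.range n,
        √(PB.ip (PB.ball Z K) (PB.pp m Z)
          ((PB.TT (PB.ball Z K) (PB.cc m Z) (PB.pp m Z))^[2 * k] fun x => if x = [] then 1 else 0)
          ((PB.TT (PB.ball Z K) (PB.cc m Z) (PB.pp m Z))^[2 * k] fun x => if x = [] then 1 else 0) -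
          PB.ip (PB.ball Z K) (PB.pp m Z)
          ((PB.TT (PB.ball Z K) (PB.cc m Z) (PB.pp m Z))^[2 * (k + 1)]
            fun x => if x = [] then 1 else 0)
          ((PB.TT (PB.ball Z K) (PB.cc m Z) (PB.pp m Z))^[2 * (k + 1)]
            fun x => if x = [] then 1 else 0)) =
      ∑ k ∈ Finset.range n, √(PB.AA m Z k - PB.AA m Z (k + 1)) := by
    refine Finset.sum_congr rfl fun k hk => ?_
    rw [Finset.mem_range] at hk
    rw [PB.ip_gg hm0 hZ K k (by omega), PB.ip_gg hm0 hZ K (k + 1) (by omega)]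
  rw [h2] at h1
  have h3 : PB.ip (PB.ball Z K) (PB.pp m Z) (PB.ph R) (PB.ph R) ≤
      (R : ℝ) ^ 2 * (2 * m * max C 0 * R) :=
    (PB.norm_ph hm0 hZ K R).trans (mul_le_mul_of_nonneg_left hvol2 (by positivity))
  have h4 : PB.ph R [] = R := by
    unfold PB.ph
    simp
  rw [h4] at h1
  have h5 := mul_le_mul_of_nonneg_left (Real.sqrt_le_sqrt h3) (Real.sqrt_nonneg (PB.AA m Z n))
  linarith

end Pool.Agent.R784.PT
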