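import Pool.Agent.R784.PT.Defs
import Pool.Agent.W782.FG.Split

/-!
# Part C: the volume of the Galton-Watson tree
-/

set_option autoImplicit false

open MeasureTheory ProbabilityTheory Filter Topology
open FrogGW (Env InTree Survive GW lev sh)
open scoped ENNReal

namespace Pool.Agent.R784.PT

namespace Gr

lemma mem_lev (Z : Env) (k : ℕ) (u : List ℕ) :
    u ∈ lev Z (k + 1) ↔ ∃ i v, v ∈ lev Z k ∧ i < Z v ∧ u = i :: v := by
  simp only [lev, Finset.mem_biUnion, Finset.mem_image, Finset.mem_range]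
  constructor
  · rintro ⟨v, hv, i, hi, rfl⟩
    exact ⟨i, v, hv, hi, rfl⟩
  · rintro ⟨i, v, hv, hi, rfl⟩
    exact ⟨v, hv, i, hi, rfl⟩

lemma mem_lev_sh (k : ℕ) : ∀ (Z : Env) (u : List ℕ),
    u ∈ lev Z (k + 1) ↔ ∃ i, i < Z [] ∧ ∃ v ∈ lev (sh i Z) k, u = v ++ [i] := by
  induction k with
  | zero =>
    intro Z u
    rw [mem_lev]
    constructor
    · rintro ⟨i, v, hv, hi, rfl⟩
      have h : v = [] := by simpa [lev] using hv
      subst h
      exact ⟨i, hi, [], by simp [lev], rfl⟩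
    · rintro ⟨i, hi, v, hv, rfl⟩
      have h : v = [] := by simpa [lev] using hv
      subst h
      exact ⟨i, [], by simp [lev], hi, rfl⟩
  | succ k ih =>
    intro Z u
    rw [mem_lev]
    constructor
    · rintro ⟨j, v, hv, hj, rfl⟩
      obtain ⟨i, hi, v', hv', rfl⟩ := (ih Z v).1 hv
      exact ⟨i, hi, j :: v', (mem_lev _ _ _).2 ⟨j, v', hv', hj, rfl⟩, rfl⟩
    · rintro ⟨i, hi, v, hv, rfl⟩
      obtain ⟨j, v', hv', hj, rfl⟩ := (mem_lev _ _ _).1 hv
      exact ⟨j, v' ++ [i], (ih Z _).2 ⟨i, hi, v', hv', rfl⟩, hj, rfl⟩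

/-- the recursion for the size of a generation -/
lemma card_lev (Z : Env) (k : ℕ) :
    (lev Z (k + 1)).card = ∑ i ∈ Finset.range (Z []), (lev (sh i Z) k).card := by
  classical
  have e : lev Z (k + 1) = (Finset.range (Z [])).biUnion fun i =>
      (lev (sh i Z) k).image fun v => v ++ [i] := by
    ext u
    rw [mem_lev_sh]
    simp only [Finset.mem_biUnion, Finset.mem_image, Finset.mem_range]
    constructor
    · rintro ⟨i, hi, v, hv, rfl⟩
      exact ⟨i, hi, v, hv, rfl⟩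
    · rintro ⟨i, hi, v, hv, rfl⟩
      exact ⟨i, hi, v, hv, rfl⟩
  rw [e, Finset.card_biUnion]
  · refine Finset.sum_congr rfl fun i _ => ?_
    rw [Finset.card_image_of_injective]
    intro a b h
    exact (List.append_left_inj [i]).1 h
  · intro i _ j _ hij
    rw [Function.onFun, Finset.disjoint_left]
    intro u hu hu'
    simp only [Finset.mem_image] at hu hu'
    obtain ⟨v, -, rfl⟩ := hu
    obtain ⟨v', -, h⟩ := hu'
    have h1 := List.append_inj_right' h rfl
    exact hij (by simpa using h1.symm)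

/-- the size of a generation -/
noncomputable def c (k : ℕ) (Z : Env) : ℝ≥0∞ := ((lev Z k).card : ℝ≥0∞)

/-- the recursion as a function of the first generation -/
noncomputable def F (k : ℕ) (q : ℕ × (ℕ → Env)) : ℝ≥0∞ := ∑ i ∈ Finset.range q.1, c k (q.2 i)

lemma c_succ (k : ℕ) (Z : Env) : c (k + 1) Z = F k (Z [], fun i => sh i Z) := by
  unfold c F
  rw [card_lev]
  push_cast
  rfl

lemma F_meas {k : ℕ} (h : Measurable (c k)) : Measurable (F k) := by
  apply measurable_from_prod_countable_right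
  intro n
  have h0 : ∀ j ∈ Finset.range n, Measurable fun y : ℕ → Env => c k (y j) :=
    fun j _ => h.comp (measurable_pi_apply j)
  exact Finset.measurable_sum _ h0

lemma c_meas (k : ℕ) : Measurable (c k) := by
  induction k with
  | zero =>
    have e : c 0 = fun _ => 1 := by
      funext Z
      simp [c, lev]
    rw [e]
    exact measurable_const
  | succ k ih =>
    have e : c (k + 1) = F k ∘ fun Z : Env => (Z [], fun i : ℕ => sh i Z) := by
      funext Z
      exact c_succ k Z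
    rw [e]
    refine (F_meas ih).comp ?_
    refine (measurable_pi_apply _).prodMk (measurable_pi_lambda _ fun i => ?_)
    exact measurable_pi_lambda _ fun v => measurable_pi_apply (v ++ [i])

lemma c_int (p : Measure ℕ) [IsProbabilityMeasure p] (k : ℕ) :
    ∫⁻ Z, c k Z ∂(GW p) = (∫⁻ n, (n : ℝ≥0∞) ∂p) ^ k := by
  induction k with
  | zero =>
    have e : c 0 = fun _ => 1 := by
      funext Z
      simp [c, lev]
    rw [e, lintegral_const, measure_univ, mul_one, pow_zero]
  | succ k ih =>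
    have h1 := (Pool.Agent.W782.FG.tree p).lintegral_comp (F_meas (c_meas k))
    have h2 : ∫⁻ Z, c (k + 1) Z ∂(GW p) = ∫⁻ Z, F k (Z [], fun i => sh i Z) ∂(GW p) :=
      lintegral_congr fun Z => c_succ k Z
    rw [h2, h1, lintegral_prod _ (F_meas (c_meas k)).aemeasurable]
    have h3 : ∀ n : ℕ, ∫⁻ v : ℕ → Env, F k (n, v) ∂(Measure.infinitePi fun _ : ℕ => GW p) =
        (n : ℝ≥0∞) * ∫⁻ Z, c k Z ∂(GW p) := by
      intro n
      have h0 : ∀ j ∈ Finset.range n, Measurable fun y : ℕ → Env => c k (y j) :=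
        fun j _ => (c_meas k).comp (measurable_pi_apply j)
      show ∫⁻ v : ℕ → Env, ∑ j ∈ Finset.range n, c k (v j) ∂_ = _
      rw [lintegral_finsetSum _ h0]
      have h2 : ∀ j ∈ Finset.range n, ∫⁻ v : ℕ → Env, c k (v j)
          ∂(Measure.infinitePi fun _ : ℕ => GW p) = ∫⁻ Z, c k Z ∂(GW p) := by
        intro j _
        exact (measurePreserving_eval_infinitePi (fun _ : ℕ => GW p) j).lintegral_comp (c_meas k)
      rw [Finset.sum_congr rfl h2]
      simp
    simp only [h3]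
    rw [lintegral_mul_const _ (by exact measurable_from_top), ih, pow_succ, mul_comm]

end Gr

open Gr in
theorem c : S_C := by
  intro p _ m hm hp
  have hm0 : 0 < m := by linarith
  -- the averages
  obtain ⟨g, hg⟩ : ∃ g : ℕ → Env → ℝ≥0∞, g = fun (R : ℕ) (Z : Env) => ENNReal.ofReal ((R : ℝ) + 1)⁻¹ *
      ∑ k ∈ Finset.range (R + 1 + 2), ENNReal.ofReal ((m ^ k)⁻¹) * Gr.c k Z := ⟨_, rfl⟩
  have hgm : ∀ R, Measurable (g R) := by
    intro R
    rw [hg]
    refine Measurable.const_mul ?_ _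
    exact Finset.measurable_sum _ fun k _ => (c_meas k).const_mul _
  have hgi : ∀ R, ∫⁻ Z, g R Z ∂(GW p) ≤ 3 := by
    intro R
    rw [hg]
    show ∫⁻ Z, ENNReal.ofReal ((R : ℝ) + 1)⁻¹ *
      ∑ k ∈ Finset.range (R + 1 + 2), ENNReal.ofReal ((m ^ k)⁻¹) * Gr.c k Z ∂(GW p) ≤ 3
    rw [lintegral_const_mul _ (Finset.measurable_sum _ fun k _ => (c_meas k).const_mul _),
      lintegral_finsetSum _ (fun k _ => (c_meas k).const_mul _)]
    have h1 : ∀ k ∈ Finset.range (R + 1 + 2), ∫⁻ Z, ENNReal.ofReal ((m ^ k)⁻¹) * Gr.c k Z ∂(GW p)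
        = 1 := by
      intro k _
      rw [lintegral_const_mul _ (c_meas k), c_int, hp, ← ENNReal.ofReal_pow hm0.le,
        ← ENNReal.ofReal_mul (by positivity), inv_mul_cancel₀ (by positivity), ENNReal.ofReal_one]
    rw [Finset.sum_congr rfl h1, Finset.sum_const, Finset.card_range, nsmul_eq_mul, mul_one]
    have h2 : ((R + 1 + 2 : ℕ) : ℝ≥0∞) = ENNReal.ofReal ((R : ℝ) + 3) := by
      rw [← ENNReal.ofReal_natCast]
      congr 1
      push_cast
      ring
    have h3 : (3 : ℝ≥0∞) = ENNReal.ofReal 3 := by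
      rw [ENNReal.ofReal_ofNat]
    rw [h2, h3, ← ENNReal.ofReal_mul (by positivity)]
    apply ENNReal.ofReal_le_ofReal
    rw [inv_mul_le_iff₀ (by positivity)]
    have : (0 : ℝ) ≤ R := Nat.cast_nonneg R
    linarith
  have hfat : ∫⁻ Z, liminf (fun R => g R Z) atTop ∂(GW p) ≤
      liminf (fun R => ∫⁻ Z, g R Z ∂(GW p)) atTop := lintegral_liminf_le hgm
  have hlim : liminf (fun R => ∫⁻ Z, g R Z ∂(GW p)) atTop ≤ 3 := by
    refine liminf_le_of_le (by isBoundedDefault) fun b hb => ?_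
    obtain ⟨R, hR⟩ := hb.exists
    exact hR.trans (hgi R)
  have hlm : Measurable fun Z => liminf (fun R => g R Z) atTop := Measurable.liminf hgm
  have hae : ∀ᵐ Z ∂(GW p), liminf (fun R => g R Z) atTop < ∞ :=
    ae_lt_top hlm (ne_of_lt (lt_of_le_of_lt (hfat.trans hlim) (by norm_num)))
  filter_upwards [hae] with Z hZ
  obtain ⟨C, hC, -⟩ := ENNReal.lt_iff_exists_nnreal_btwn.1 hZ
  have hfr := frequently_lt_of_liminf_lt (by isBoundedDefault) hC
  refine ⟨C, ?_⟩
  rw [frequently_atTop] at hfr ⊢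
  intro a
  obtain ⟨R, hRa, hR⟩ := hfr a
  refine ⟨R + 1, by omega, ?_⟩
  have hsum : ∑ k ∈ Finset.range (R + 1 + 2), ENNReal.ofReal ((m ^ k)⁻¹) * Gr.c k Z =
      ENNReal.ofReal (∑ k ∈ Finset.range (R + 1 + 2), ((lev Z k).card : ℝ) / m ^ k) := by
    rw [ENNReal.ofReal_sum_of_nonneg (fun k _ => by positivity)]
    refine Finset.sum_congr rfl fun k _ => ?_
    unfold Gr.c
    rw [← ENNReal.ofReal_natCast, ← ENNReal.ofReal_mul (by positivity)]
    congr 1
    rw [div_eq_mul_inv, mul_comm]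
  rw [hg] at hR
  have hR' : ENNReal.ofReal ((R : ℝ) + 1)⁻¹ *
      ∑ k ∈ Finset.range (R + 1 + 2), ENNReal.ofReal ((m ^ k)⁻¹) * Gr.c k Z < C := hR
  rw [hsum, ← ENNReal.ofReal_mul (by positivity)] at hR'
  by_contra hcon
  rw [not_le] at hcon
  refine absurd hR' (not_lt.2 ?_)
  have h1 : (C : ℝ≥0∞) = ENNReal.ofReal (C : ℝ) := by rw [ENNReal.ofReal_coe_nnreal]
  rw [h1]
  apply ENNReal.ofReal_le_ofReal
  rw [le_inv_mul_iff₀ (by positivity)]
  push_cast at hcon
  linarith

end Pool.Agent.R784.PT
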