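import Pool.Agent.W852.FG.Stms

/-!
# Directed polymer on a Galton-Watson tree (MP_8c378f): definitions and statements of the parts

Trees: `FrogGW.Env` (the root is `[]`, the children of `u` are `i :: u`, `i < Z u`).
-/

open MeasureTheory ProbabilityTheory Filter Topology
open FrogGW (Env InTree Survive GW lev)
open scoped ENNReal

namespace Pool.Agent.R784.PT

/-- The average of `F` over one step of the `lam`-biased walk on the tree of `Z`. -/
noncomputable def stepE (lam : ℝ) (Z : Env) (F : List ℕ → ℝ) : List ℕ → ℝ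
  | [] => (∑ i ∈ Finset.range (Z []), F [i]) / (Z [] : ℝ)
  | i :: v => (lam * F v + ∑ j ∈ Finset.range (Z (i :: v)), F (j :: i :: v)) /
      (lam + Z (i :: v))

/-- The expectation of `F [S_1, …, S_n]` for the `lam`-biased walk started at `x`. -/
noncomputable def walkE (lam : ℝ) (Z : Env) : ℕ → List ℕ → (List (List ℕ) → ℝ) → ℝ
  | 0, _, F => F []
  | n + 1, x, F => stepE lam Z (fun y => walkE lam Z n y (fun l => F (y :: l))) x

/-- `Λ(β) = log E exp (β ω)`. -/
noncomputable def logMgf (ν : Measure ℝ) (β : ℝ) : ℝ := Real.log (∫ t, Real.exp (β * t) ∂ν)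

/-- The partition function `W_n(β)`; the disorder at time `i + 1` is `ω i`. -/
noncomputable def Wn (ν : Measure ℝ) (lam : ℝ) (Z : Env) (β : ℝ) (n : ℕ)
    (ω : ℕ → List ℕ → ℝ) : ℝ :=
  walkE lam Z n [] fun s =>
    Real.exp (∑ i ∈ Finset.range n, (β * ω i (s.getD i []) - logMgf ν β))

/-- The probability that the walk from the root is at the root at time `n`. -/
noncomputable def ret (lam : ℝ) (Z : Env) (n : ℕ) : ℝ :=
  (stepE lam Z)^[n] (fun x => if x = [] then 1 else 0) []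

/-- Part W: weights. -/
def S_W : Prop := ∀ u : ℕ → ℝ, (∀ n, 0 ≤ u n) → (∀ n, u n ≤ 1) →
  ¬ Summable (fun n => u n ^ 2) → ∀ B : ℕ, ∃ (s : ℕ) (v : ℕ → ℝ), (∀ n, 0 ≤ v n) ∧ v 0 = 0 ∧
    (∀ n, s < n → v n = 0) ∧ ∑ n ∈ Finset.range (s + 1), v n * u n = B ∧
    ∑ n ∈ Finset.range (s + 1), v n ^ 2 ≤ B ∧
    2 * ∑ j ∈ Finset.range (s + 1), ∑ i ∈ Finset.range j, v i * v j * (u i * u (j - i)) ≤
      (B : ℝ) ^ 2 + 4 * B

/-- Part B: the return probabilities are not square summable if there are infinitely many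
radii with at most linear volume. -/
def S_B : Prop := ∀ (Z : Env) (m : ℝ), 1 < m → 1 ≤ Z [] → ∀ C : ℝ,
  (∃ᶠ R : ℕ in atTop, ∑ k ∈ Finset.range (R + 2), ((lev Z k).card : ℝ) / m ^ k ≤ C * R) →
  ¬ Summable (fun n => ret m Z n ^ 2)

/-- Part C: almost every Galton-Watson tree has infinitely many such radii. -/
def S_C : Prop := ∀ (p : Measure ℕ) [IsProbabilityMeasure p] (m : ℝ), 1 < m →
  ∫⁻ k, (k : ℝ≥0∞) ∂p = ENNReal.ofReal m →
  ∀ᵐ Z ∂(GW p), ∃ C : ℝ,
    ∃ᶠ R : ℕ in atTop, ∑ k ∈ Finset.range (R + 2), ((lev Z k).card : ℝ) / m ^ k ≤ C * R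

end Pool.Agent.R784.PT
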