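import Pool.Agent.R784.PT.Defs

/-!
# Part W: the weights
-/

set_option autoImplicit false

open MeasureTheory ProbabilityTheory Filter Topology

namespace Pool.Agent.R784.PT

namespace Wt

/-- the sum of a shifted block -/
lemma shift_le {u : ℕ → ℝ} (h0 : ∀ n, 0 ≤ u n) (h1 : ∀ n, u n ≤ 1) {s t i : ℕ} (hi : i ≤ s)
    (hst : s ≤ t) : ∑ j ∈ Finset.Ico (s + 1) (t + 1), u (j - i) ^ 2 ≤
      ∑ j ∈ Finset.Ico (s + 1) (t + 1), u j ^ 2 + i := by
  have e1 := Finset.sum_Ico_add' (fun j => u (j - i) ^ 2) (s + 1 - i) (t + 1 - i) i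
  rw [Nat.sub_add_cancel (by omega), Nat.sub_add_cancel (by omega)] at e1
  rw [← e1]
  simp only [Nat.add_sub_cancel]
  have h2 : ∑ x ∈ Finset.Ico (s + 1 - i) (t + 1 - i), u x ^ 2 ≤
      ∑ x ∈ Finset.Ico (s + 1 - i) (t + 1), u x ^ 2 :=
    Finset.sum_le_sum_of_subset_of_nonneg (Finset.Ico_subset_Ico_right (by omega))
      (fun x _ _ => sq_nonneg _)
  refine h2.trans ?_
  rw [← Finset.sum_Ico_consecutive _ (show s + 1 - i ≤ s + 1 by omega) (show s + 1 ≤ t + 1 by omega)]
  have h3 : ∑ x ∈ Finset.Ico (s + 1 - i) (s + 1), u x ^ 2 ≤ i := by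
    have h4 : ∑ x ∈ Finset.Ico (s + 1 - i) (s + 1), u x ^ 2 ≤
        ∑ x ∈ Finset.Ico (s + 1 - i) (s + 1), (1 : ℝ) :=
      Finset.sum_le_sum fun x _ => pow_le_one₀ (h0 x) (h1 x)
    refine h4.trans ?_
    rw [Finset.sum_const, Nat.card_Ico, nsmul_eq_mul, mul_one]
    have : s + 1 - (s + 1 - i) = i := by omega
    rw [this]
  linarith

/-- the sum of a shifted block, inside a block -/
lemma shift_le2 {u : ℕ → ℝ} {t i : ℕ} (hi : i ≤ t) :
    ∑ j ∈ Finset.Ico (i + 1) (t + 1), u (j - i) ^ 2 ≤ ∑ j ∈ Finset.range (t + 1), u j ^ 2 := by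
  have e1 := Finset.sum_Ico_add' (fun j => u (j - i) ^ 2) 1 (t + 1 - i) i
  rw [Nat.sub_add_cancel (by omega), add_comm 1 i] at e1
  rw [← e1]
  simp only [Nat.add_sub_cancel]
  rw [Finset.range_eq_Ico]
  exact Finset.sum_le_sum_of_subset_of_nonneg (Finset.Ico_subset_Ico (by omega) (by omega))
      (fun x _ _ => sq_nonneg _)

end Wt

open Wt in
theorem w : S_W := by
  intro u h0 h1 hu B
  induction B with
  | zero =>
    refine ⟨0, fun _ => 0, fun _ => le_rfl, rfl, fun _ _ => rfl, ?_, ?_, ?_⟩ <;> simp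
  | succ B ih =>
    obtain ⟨s, v, hv, hv0, hvs, hsum, hsq, hdb⟩ := ih
    have hnn : ∀ n, 0 ≤ u n ^ 2 := fun n => sq_nonneg _
    -- the choice of `t`
    obtain ⟨t, hst, hD⟩ : ∃ t, s < t ∧ max (max (1 : ℝ) (2 * (B : ℝ) * (s : ℝ))) (∑ k ∈ Finset.range (s + 1), u k ^ 2) +
        ∑ k ∈ Finset.range (s + 1), u k ^ 2 ≤ ∑ k ∈ Finset.range (t + 1), u k ^ 2 := by
      have h2 := (not_summable_iff_tendsto_nat_atTop_of_nonneg hnn).1 hu
      have h3 := (tendsto_atTop.1 h2 (max (max (1 : ℝ) (2 * (B : ℝ) * (s : ℝ)))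
        (∑ k ∈ Finset.range (s + 1), u k ^ 2) + ∑ k ∈ Finset.range (s + 1), u k ^ 2)).and
        (eventually_ge_atTop (s + 2))
      obtain ⟨n, hn1, hn2⟩ := h3.exists
      refine ⟨n - 1, by omega, ?_⟩
      have : n - 1 + 1 = n := by omega
      rw [this]; exact hn1
    obtain ⟨D, hDdef⟩ : ∃ D, D = ∑ j ∈ Finset.Ico (s + 1) (t + 1), u j ^ 2 := ⟨_, rfl⟩
    have hsplit := Finset.sum_range_add_sum_Ico (fun k => u k ^ 2) (show s + 1 ≤ t + 1 by omega)
    have hD1 : 1 ≤ D := by
      have := le_max_left (1 : ℝ) (2 * B * s)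
      have := le_max_left (max (1 : ℝ) (2 * B * s)) (∑ k ∈ Finset.range (s + 1), u k ^ 2)
      linarith
    have hD2 : 2 * B * s ≤ D := by
      have := le_max_right (1 : ℝ) (2 * B * s)
      have := le_max_left (max (1 : ℝ) (2 * B * s)) (∑ k ∈ Finset.range (s + 1), u k ^ 2)
      linarith
    have hD3 : ∑ k ∈ Finset.range (t + 1), u k ^ 2 ≤ 2 * D := by
      have := le_max_right (max (1 : ℝ) (2 * B * s)) (∑ k ∈ Finset.range (s + 1), u k ^ 2)
      linarith
    have hD0 : 0 < D := by linarith
    obtain ⟨v', hv'⟩ : ∃ v' : ℕ → ℝ, v' = fun n => if n ≤ s then v n else if n ≤ t then u n / D else 0 :=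
      ⟨_, rfl⟩
    have e1 : ∀ n, n ≤ s → v' n = v n := fun n hn => by rw [hv']; exact if_pos hn
    have e2 : ∀ n, s < n → n ≤ t → v' n = u n / D := fun n hn hn' => by
      rw [hv']
      show (if n ≤ s then v n else if n ≤ t then u n / D else 0) = _
      rw [if_neg (by omega), if_pos hn']
    refine ⟨t, v', ?_, ?_, ?_, ?_, ?_, ?_⟩
    · intro n
      rw [hv']
      show 0 ≤ (if n ≤ s then v n else if n ≤ t then u n / D else 0)
      split_ifs
      · exact hv n
      · exact div_nonneg (h0 n) hD0.le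
      · exact le_rfl
    · rw [e1 0 (Nat.zero_le _), hv0]
    · intro n hn
      rw [hv']
      show (if n ≤ s then v n else if n ≤ t then u n / D else 0) = 0
      rw [if_neg (by omega), if_neg (by omega)]
    · rw [← Finset.sum_range_add_sum_Ico _ (show s + 1 ≤ t + 1 by omega)]
      have a1 : ∑ k ∈ Finset.range (s + 1), v' k * u k = B := by
        rw [← hsum]
        refine Finset.sum_congr rfl fun k hk => ?_
        rw [Finset.mem_range] at hk
        rw [e1 k (by omega)]
      have a2 : ∑ k ∈ Finset.Ico (s + 1) (t + 1), v' k * u k = 1 := by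
        have : ∑ k ∈ Finset.Ico (s + 1) (t + 1), v' k * u k =
            ∑ k ∈ Finset.Ico (s + 1) (t + 1), u k ^ 2 / D := by
          refine Finset.sum_congr rfl fun k hk => ?_
          rw [Finset.mem_Ico] at hk
          rw [e2 k (by omega) (by omega)]
          ring
        rw [this, ← Finset.sum_div, ← hDdef, div_self hD0.ne']
      rw [a1, a2]; push_cast; ring
    · rw [← Finset.sum_range_add_sum_Ico _ (show s + 1 ≤ t + 1 by omega)]
      have a1 : ∑ k ∈ Finset.range (s + 1), v' k ^ 2 ≤ B := by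
        refine le_trans (le_of_eq ?_) hsq
        refine Finset.sum_congr rfl fun k hk => ?_
        rw [Finset.mem_range] at hk
        rw [e1 k (by omega)]
      have a2 : ∑ k ∈ Finset.Ico (s + 1) (t + 1), v' k ^ 2 ≤ 1 := by
        have : ∑ k ∈ Finset.Ico (s + 1) (t + 1), v' k ^ 2 =
            ∑ k ∈ Finset.Ico (s + 1) (t + 1), u k ^ 2 / D ^ 2 := by
          refine Finset.sum_congr rfl fun k hk => ?_
          rw [Finset.mem_Ico] at hk
          rw [e2 k (by omega) (by omega)]
          ring
        rw [this, ← Finset.sum_div, ← hDdef, div_le_one (by positivity)]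
        nlinarith
      push_cast; linarith
    · rw [← Finset.sum_range_add_sum_Ico _ (show s + 1 ≤ t + 1 by omega)]
      have a1 : ∑ j ∈ Finset.range (s + 1), ∑ i ∈ Finset.range j, v' i * v' j * (u i * u (j - i)) =
          ∑ j ∈ Finset.range (s + 1), ∑ i ∈ Finset.range j, v i * v j * (u i * u (j - i)) := by
        refine Finset.sum_congr rfl fun j hj => Finset.sum_congr rfl fun i hi => ?_
        rw [Finset.mem_range] at hj hi
        rw [e1 j (by omega), e1 i (by omega)]
      have a2 : ∑ j ∈ Finset.Ico (s + 1) (t + 1), ∑ i ∈ Finset.range j,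
          v' i * v' j * (u i * u (j - i)) =
          ∑ j ∈ Finset.Ico (s + 1) (t + 1), ∑ i ∈ Finset.range (s + 1),
            v i * (u j / D) * (u i * u (j - i)) +
          ∑ j ∈ Finset.Ico (s + 1) (t + 1), ∑ i ∈ Finset.Ico (s + 1) j,
            (u i / D) * (u j / D) * (u i * u (j - i)) := by
        rw [← Finset.sum_add_distrib]
        refine Finset.sum_congr rfl fun j hj => ?_
        rw [Finset.mem_Ico] at hj
        rw [← Finset.sum_range_add_sum_Ico _ (show s + 1 ≤ j by omega)]
        congr 1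
        · refine Finset.sum_congr rfl fun i hi => ?_
          rw [Finset.mem_range] at hi
          rw [e1 i (by omega), e2 j (by omega) (by omega)]
        · refine Finset.sum_congr rfl fun i hi => ?_
          rw [Finset.mem_Ico] at hi
          rw [e2 i (by omega) (by omega), e2 j (by omega) (by omega)]
      have am : ∀ x y : ℝ, x * y ≤ (x ^ 2 + y ^ 2) / 2 := fun x y => by nlinarith [sq_nonneg (x - y)]
      -- the cross terms
      have a3 : ∑ j ∈ Finset.Ico (s + 1) (t + 1), ∑ i ∈ Finset.range (s + 1),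
            v i * (u j / D) * (u i * u (j - i)) ≤ B + 1 / 4 := by
        rw [Finset.sum_comm]
        have b1 : ∀ i ∈ Finset.range (s + 1), ∑ j ∈ Finset.Ico (s + 1) (t + 1),
            v i * (u j / D) * (u i * u (j - i)) ≤ v i * u i * (1 + s / (2 * D)) := by
          intro i hi
          rw [Finset.mem_range] at hi
          have c1 : ∑ j ∈ Finset.Ico (s + 1) (t + 1), v i * (u j / D) * (u i * u (j - i)) =
              v i * u i * ((∑ j ∈ Finset.Ico (s + 1) (t + 1), u j * u (j - i)) / D) := by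
            rw [Finset.sum_div, Finset.mul_sum]
            refine Finset.sum_congr rfl fun j _ => ?_
            ring
          rw [c1]
          refine mul_le_mul_of_nonneg_left ?_ (mul_nonneg (hv i) (h0 i))
          rw [div_le_iff₀ hD0]
          have c2 : ∑ j ∈ Finset.Ico (s + 1) (t + 1), u j * u (j - i) ≤
              ∑ j ∈ Finset.Ico (s + 1) (t + 1), (u j ^ 2 + u (j - i) ^ 2) / 2 :=
            Finset.sum_le_sum fun j _ => am _ _
          rw [← Finset.sum_div, Finset.sum_add_distrib] at c2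
          have c3 := shift_le h0 h1 (show i ≤ s by omega) (show s ≤ t by omega)
          rw [← hDdef] at c2 c3
          have c4 : (i : ℝ) ≤ s := by exact_mod_cast (show i ≤ s by omega)
          have c5 : (1 + s / (2 * D)) * D = D + s / 2 := by field_simp
          rw [c5]
          linarith
        refine (Finset.sum_le_sum b1).trans ?_
        rw [← Finset.sum_mul, hsum]
        have b2 : (B : ℝ) * (s / (2 * D)) ≤ 1 / 4 := by
          rw [mul_div_assoc', div_le_iff₀ (by positivity)]
          linarith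
        linarith
      -- the same block
      have a4 : ∑ j ∈ Finset.Ico (s + 1) (t + 1), ∑ i ∈ Finset.Ico (s + 1) j,
            (u i / D) * (u j / D) * (u i * u (j - i)) ≤ 3 / 2 := by
        have b1 : ∑ j ∈ Finset.Ico (s + 1) (t + 1), ∑ i ∈ Finset.Ico (s + 1) j,
            (u i / D) * (u j / D) * (u i * u (j - i)) ≤
            ∑ j ∈ Finset.Ico (s + 1) (t + 1), ∑ i ∈ Finset.Ico (s + 1) j,
            (u i ^ 2 * u j ^ 2 + u i ^ 2 * u (j - i) ^ 2) / (2 * D ^ 2) := by
          refine Finset.sum_le_sum fun j _ => Finset.sum_le_sum fun i _ => ?_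
          have c1 : (u i / D) * (u j / D) * (u i * u (j - i)) =
              (u i ^ 2 * (u j * u (j - i))) / D ^ 2 := by field_simp
          have c2 : (u i ^ 2 * u j ^ 2 + u i ^ 2 * u (j - i) ^ 2) / (2 * D ^ 2) =
              (u i ^ 2 * ((u j ^ 2 + u (j - i) ^ 2) / 2)) / D ^ 2 := by field_simp
          rw [c1, c2]
          exact div_le_div_of_nonneg_right (mul_le_mul_of_nonneg_left (am _ _) (hnn i))
            (by positivity)
        refine b1.trans ?_
        simp only [← Finset.sum_div, Finset.sum_add_distrib]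
        rw [div_le_iff₀ (by positivity)]
        have b2 : ∑ j ∈ Finset.Ico (s + 1) (t + 1), ∑ i ∈ Finset.Ico (s + 1) j,
            u i ^ 2 * u j ^ 2 ≤ D * D := by
          conv_rhs => rw [hDdef, Finset.mul_sum]
          refine Finset.sum_le_sum fun j hj => ?_
          rw [Finset.mem_Ico] at hj
          rw [← Finset.sum_mul]
          refine mul_le_mul_of_nonneg_right ?_ (hnn j)
          exact Finset.sum_le_sum_of_subset_of_nonneg (Finset.Ico_subset_Ico_right (by omega))
            (fun x _ _ => hnn x)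
        have b3 : ∑ j ∈ Finset.Ico (s + 1) (t + 1), ∑ i ∈ Finset.Ico (s + 1) j,
            u i ^ 2 * u (j - i) ^ 2 ≤ D * (2 * D) := by
          rw [← Finset.sum_Ico_Ico_comm' (s + 1) (t + 1) (fun i j => u i ^ 2 * u (j - i) ^ 2)]
          conv_rhs => rw [hDdef, Finset.sum_mul]
          refine Finset.sum_le_sum fun i hi => ?_
          rw [Finset.mem_Ico] at hi
          rw [← Finset.mul_sum]
          refine mul_le_mul_of_nonneg_left ?_ (hnn i)
          rw [← hDdef]
          exact (shift_le2 (show i ≤ t by omega)).trans hD3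
        nlinarith
      rw [a1, a2]
      push_cast
      linarith

end Pool.Agent.R784.PT
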