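import Pool.Agent.R784.PT.A6
import Pool.Agent.R784.PT.W
import Pool.Agent.R784.PT.B

/-! The quenched statement on a fixed tree. -/

open MeasureTheory ProbabilityTheory Filter Topology
open FrogGW (Env InTree Survive GW lev)
open scoped ENNReal

namespace Pool.Agent.R784.PT

theorem isAvg_stepE {lam : ℝ} (hlam : 0 < lam) {Z : Env} (hZ : 1 ≤ Z []) :
    IsAvg (stepE lam Z) := by
  classical
  intro x
  cases x with
  | nil =>
    have h0 : (0 : ℝ) < (Z [] : ℝ) := by exact_mod_cast hZ
    refine ⟨(Finset.range (Z [])).image (fun i => [i]), fun _ => (Z [] : ℝ)⁻¹,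
      fun _ _ => by positivity, ?_, ?_⟩
    · rw [Finset.sum_image (fun a _ b _ h => by simpa using h)]
      simp only [Finset.sum_const, Finset.card_range, nsmul_eq_mul]
      exact mul_inv_cancel₀ h0.ne'
    · intro F
      rw [Finset.sum_image (fun a _ b _ h => by simpa using h), ← Finset.mul_sum]
      change (∑ i ∈ Finset.range (Z []), F [i]) / (Z [] : ℝ) = _
      rw [div_eq_inv_mul]
  | cons i v =>
    have h0 : (0 : ℝ) < lam + (Z (i :: v) : ℝ) := by positivity
    have hnot : v ∉ (Finset.range (Z (i :: v))).image (fun j => j :: i :: v) := by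
      intro h
      obtain ⟨j, -, hj⟩ := Finset.mem_image.1 h
      have := congrArg List.length hj
      simp at this
      omega
    have hinj : ∀ a ∈ Finset.range (Z (i :: v)), ∀ b ∈ Finset.range (Z (i :: v)),
        (fun j => j :: i :: v) a = (fun j => j :: i :: v) b → a = b := by
      intro a _ b _ h
      simpa using h
    refine ⟨insert v ((Finset.range (Z (i :: v))).image (fun j => j :: i :: v)),
      fun y => if y = v then lam / (lam + Z (i :: v)) else 1 / (lam + Z (i :: v)),
      fun y _ => by dsimp only; split_ifs <;> positivity, ?_, ?_⟩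
    · rw [Finset.sum_insert hnot, Finset.sum_image hinj, if_pos rfl]
      have h1 : ∀ j ∈ Finset.range (Z (i :: v)), (if (j :: i :: v) = v then
          lam / (lam + (Z (i :: v) : ℝ)) else 1 / (lam + Z (i :: v))) =
            1 / (lam + (Z (i :: v) : ℝ)) := by
        intro j _
        rw [if_neg]
        intro h
        have := congrArg List.length h
        simp at this
        omega
      rw [Finset.sum_congr rfl h1]
      simp only [Finset.sum_const, Finset.card_range, nsmul_eq_mul]
      field_simp
    · intro F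
      rw [Finset.sum_insert hnot, Finset.sum_image hinj]
      dsimp only
      rw [if_pos rfl]
      have h1 : ∀ j ∈ Finset.range (Z (i :: v)), (if (j :: i :: v) = v then
          lam / (lam + (Z (i :: v) : ℝ)) else 1 / (lam + Z (i :: v))) * F (j :: i :: v) =
            1 / (lam + (Z (i :: v) : ℝ)) * F (j :: i :: v) := by
        intro j _
        rw [if_neg]
        intro h
        have := congrArg List.length h
        simp at this
        omega
      rw [Finset.sum_congr rfl h1, ← Finset.mul_sum]
      change (lam * F v + ∑ j ∈ Finset.range (Z (i :: v)), F (j :: i :: v)) /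
        (lam + Z (i :: v)) = _
      field_simp

theorem walkE_eq (lam : ℝ) (Z : Env) (n : ℕ) : ∀ (x : List ℕ) (F : List (List ℕ) → ℝ),
    walkE lam Z n x F = EW (stepE lam Z) n x F := by
  induction n with
  | zero => intro x F; rfl
  | succ n ih =>
    intro x F
    change stepE lam Z (fun y => walkE lam Z n y (fun l => F (y :: l))) x = _
    rw [EW_succ]
    congr 1
    funext y
    exact ih y _

theorem Wn_eq (ν : Measure ℝ) (lam : ℝ) (Z : Env) (β : ℝ) (n : ℕ) (ω : ℕ → List ℕ → ℝ) :
    Wn ν lam Z β n ω = WW (stepE lam Z) ν β [] n ω := walkE_eq lam Z n [] _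

theorem ret_eq (lam : ℝ) (Z : Env) (n : ℕ) : ret lam Z n = (stepE lam Z)^[n] (ind []) [] := by
  unfold ret ind
  congr 1

/-- on a fixed tree -/
theorem quenched {ν : Measure ℝ} [IsProbabilityMeasure ν]
    (hν : ∀ b : ℝ, Integrable (fun t => Real.exp (b * t)) ν) (hc : ∀ c : ℝ, ν ≠ Measure.dirac c)
    {m : ℝ} (hm : 1 < m) {Z : Env} (hZ : 1 ≤ Z []) {C : ℝ}
    (hR : ∃ᶠ R : ℕ in atTop, ∑ k ∈ Finset.range (R + 2), ((lev Z k).card : ℝ) / m ^ k ≤ C * R)
    {β : ℝ} (hβ : 0 < β) :
    ∀ᵐ ω ∂(env (List ℕ) ν), Tendsto (fun n => Wn ν m Z β n ω) atTop (𝓝 0) := by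
  have hA := isAvg_stepE (lt_trans one_pos hm) hZ
  have hb := b Z m hm hZ C hR
  simp only [ret_eq] at hb
  have h := partA hA hν w hc [] hb hβ
  filter_upwards [h] with ω hω
  simp only [Wn_eq]
  exact hω

theorem Wn_zero {ν : Measure ℝ} [IsProbabilityMeasure ν] {m : ℝ} (hm : 0 < m) {Z : Env}
    (hZ : 1 ≤ Z []) (n : ℕ) (ω : ℕ → List ℕ → ℝ) : Wn ν m Z 0 n ω = 1 := by
  have hA := isAvg_stepE hm hZ
  unfold Wn
  rw [walkE_eq]
  have h0 : logMgf ν 0 = 0 := by unfold logMgf; simp
  have : (fun s : List (List ℕ) => Real.exp (∑ i ∈ Finset.range n,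
      (0 * ω i (s.getD i []) - logMgf ν 0))) = fun _ => 1 := by
    funext s
    simp [h0]
  rw [this]
  exact EW_const hA n [] 1

theorem one_le_of_survive {Z : Env} (h : Z ∈ Survive) : 1 ≤ Z [] := by
  by_contra hcon
  have h0 : Z [] = 0 := by omega
  have h1 : ∀ u, InTree Z u → u = [] := by
    intro u
    induction u with
    | nil => intro _; rfl
    | cons i v ih =>
      intro hu
      obtain ⟨hv, hi⟩ := hu
      rw [ih hv, h0] at hi
      omega
  have h2 : {u | InTree Z u} ⊆ {[]} := fun u hu => h1 u hu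
  exact h ((Set.finite_singleton _).subset h2)

end Pool.Agent.R784.PT
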